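import Mathlib

/-!
# Linear forms modulo m on the Boolean cube: characters
-/

set_option autoImplicit false

namespace Pool.Agent.Helper21.LinSys

open Finset

variable {ι : Type*} [Fintype ι] [DecidableEq ι] {m : ℕ}

/-- The value at `x` of the linear form with coefficients `a` modulo `m`. -/
def ev (a : ι → ZMod m) (x : ι → Bool) : ZMod m := ∑ i, if x i = true then a i else 0

omit [DecidableEq ι] in
theorem ev_add (a b : ι → ZMod m) (x : ι → Bool) : ev (a + b) x = ev a x + ev b x := by
  unfold ev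
  rw [← Finset.sum_add_distrib]
  refine Finset.sum_congr rfl fun i _ => ?_
  split <;> simp

omit [DecidableEq ι] in
theorem ev_zero (x : ι → Bool) : ev (0 : ι → ZMod m) x = 0 := by
  unfold ev; simp

omit [DecidableEq ι] in
theorem ev_neg (a : ι → ZMod m) (x : ι → Bool) : ev (-a) x = -ev a x := by
  unfold ev
  rw [← Finset.sum_neg_distrib]
  refine Finset.sum_congr rfl fun i _ => ?_
  split <;> simp

omit [DecidableEq ι] in
theorem ev_sub (a b : ι → ZMod m) (x : ι → Bool) : ev (a - b) x = ev a x - ev b x := by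
  rw [sub_eq_add_neg, ev_add, ev_neg, ← sub_eq_add_neg]

/-- Evaluation at `x` as a homomorphism. -/
def evHom (x : ι → Bool) : (ι → ZMod m) →+ ZMod m where
  toFun a := ev a x
  map_zero' := ev_zero x
  map_add' a b := ev_add a b x

omit [DecidableEq ι] in
@[simp] theorem evHom_apply (a : ι → ZMod m) (x : ι → Bool) : evHom x a = ev a x := rfl

omit [DecidableEq ι] in
/-- Forms supported where `x` and `y` agree have the same value at `x` and `y`. -/
theorem ev_congr {a : ι → ZMod m} {x y : ι → Bool} (h : ∀ i, a i ≠ 0 → x i = y i) :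
    ev a x = ev a y := by
  unfold ev
  refine Finset.sum_congr rfl fun i _ => ?_
  by_cases hi : a i = 0
  · simp [hi]
  · rw [h i hi]

theorem normSq_one_add_exp (t : ℝ) :
    ‖(1 : ℂ) + Complex.exp (t * Complex.I)‖ ^ 2 = 4 * (1 - Real.sin (t / 2) ^ 2) := by
  rw [← Complex.normSq_eq_norm_sq, Complex.exp_mul_I, Complex.normSq_apply]
  simp only [Complex.add_re, Complex.one_re, Complex.add_im, Complex.one_im, Complex.mul_re,
    Complex.mul_im, Complex.I_re, Complex.I_im, ← Complex.ofReal_cos, ← Complex.ofReal_sin,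
    Complex.ofReal_re, Complex.ofReal_im]
  have h1 : Real.cos t = 1 - 2 * Real.sin (t / 2) ^ 2 := by
    have := Real.cos_two_mul (t / 2)
    rw [show 2 * (t / 2) = t by ring] at this
    rw [this, Real.cos_sq']
    ring
  have h2 := Real.sin_sq_add_cos_sq t
  have h3 : (1 + (Real.cos t + (Real.sin t * 0 - 0 * 1))) *
      (1 + (Real.cos t + (Real.sin t * 0 - 0 * 1))) +
      (0 + (0 + (Real.sin t * 1 + 0 * 0))) * (0 + (0 + (Real.sin t * 1 + 0 * 0)))
      = 2 + 2 * Real.cos t := by nlinarith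
  rw [h3, h1]
  ring

theorem sin_lower (m v : ℕ) (hv : 1 ≤ v) (hvm : v < m) :
    (2 : ℝ) / m ≤ Real.sin (Real.pi * v / m) := by
  have hm : (0 : ℝ) < m := by exact_mod_cast (by omega : 0 < m)
  have hpi := Real.pi_pos
  have key : ∀ u : ℕ, 1 ≤ u → 2 * u ≤ m → (2 : ℝ) / m ≤ Real.sin (Real.pi * u / m) := by
    intro u hu hum
    have h1 : (0 : ℝ) ≤ Real.pi * u / m := by positivity
    have h2 : Real.pi * u / m ≤ Real.pi / 2 := by
      rw [div_le_div_iff₀ hm (by norm_num)]
      have : (2 * u : ℝ) ≤ m := by exact_mod_cast hum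
      nlinarith
    have h3 := Real.mul_le_sin h1 h2
    refine le_trans ?_ h3
    have hu' : (1 : ℝ) ≤ u := by exact_mod_cast hu
    have : 2 / Real.pi * (Real.pi * u / m) = 2 * u / m := by
      field_simp
    rw [this]
    exact (div_le_div_iff_of_pos_right hm).2 (by linarith)
  by_cases h : 2 * v ≤ m
  · exact key v hv h
  · have h1 := key (m - v) (by omega) (by omega)
    have h2 : Real.pi * ((m - v : ℕ) : ℝ) / m = Real.pi - Real.pi * v / m := by
      rw [Nat.cast_sub hvm.le]
      field_simp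
    rw [h2, Real.sin_pi_sub] at h1
    exact h1

/-- The damping factor of a nonzero coefficient. -/
noncomputable def rho (m : ℕ) : ℝ := Real.exp (-(2 / (m : ℝ) ^ 2))

theorem rho_pos (m : ℕ) : 0 < rho m := Real.exp_pos _

theorem rho_le_one (m : ℕ) : rho m ≤ 1 := by
  unfold rho
  rw [Real.exp_le_one_iff]
  have : (0 : ℝ) ≤ 2 / (m : ℝ) ^ 2 := by positivity
  linarith

theorem norm_one_add_le [NeZero m] (a : ZMod m) (ha : a ≠ 0) :
    ‖(1 : ℂ) + ZMod.stdAddChar a‖ ≤ 2 * rho m := by
  have hv1 : 1 ≤ a.val := by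
    rcases Nat.eq_zero_or_pos a.val with h | h
    · exact absurd ((ZMod.val_eq_zero a).1 h) ha
    · exact h
  have hvm : a.val < m := ZMod.val_lt a
  have hm : (0 : ℝ) < m := by exact_mod_cast (by omega : 0 < m)
  have h1 : (ZMod.stdAddChar a : ℂ) =
      Complex.exp ((2 * Real.pi * a.val / m : ℝ) * Complex.I) := by
    rw [ZMod.stdAddChar_apply, ZMod.toCircle_apply]
    congr 1
    push_cast
    ring
  have h2 := normSq_one_add_exp (2 * Real.pi * a.val / m)
  rw [← h1] at h2
  have h3 := sin_lower m a.val hv1 hvm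
  have h4 : (2 * Real.pi * a.val / m) / 2 = Real.pi * a.val / m := by ring
  rw [h4] at h2
  have h5 : (4 : ℝ) / m ^ 2 ≤ Real.sin (Real.pi * a.val / m) ^ 2 := by
    have : ((2 : ℝ) / m) ^ 2 ≤ Real.sin (Real.pi * a.val / m) ^ 2 :=
      pow_le_pow_left₀ (by positivity) h3 2
    calc (4 : ℝ) / m ^ 2 = (2 / m) ^ 2 := by ring
      _ ≤ _ := this
  have h6 : ‖(1 : ℂ) + ZMod.stdAddChar a‖ ^ 2 ≤ (2 * rho m) ^ 2 := by
    rw [h2]
    have h7 : (2 * rho m) ^ 2 = 4 * Real.exp (-(4 / (m : ℝ) ^ 2)) := by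
      unfold rho
      rw [mul_pow, ← Real.exp_nat_mul]
      congr 1
      · norm_num
      · congr 1
        push_cast
        ring
    rw [h7]
    have h8 := Real.add_one_le_exp (-(4 / (m : ℝ) ^ 2))
    nlinarith
  exact le_of_sq_le_sq h6 (by have := rho_pos m; linarith)

end Pool.Agent.Helper21.LinSys
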