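import Pool.Agent.Helper21.LinSys.Majority

/-!
# The explicit bound
-/

set_option autoImplicit false

namespace Pool.Agent.Helper21.LinSys

open Finset

theorem two_mul_pred_pow_lt (m : ℕ) (hm : 2 ≤ m) : 2 * (m - 1) ^ m < m ^ m := by
  obtain ⟨c, rfl⟩ : ∃ c, m = c + 1 := ⟨m - 1, by omega⟩
  have hc : 1 ≤ c := by omega
  rw [Nat.add_sub_cancel]
  -- (c+1)^(c+1) ≥ c^(c+1) + (c+1) c^c
  have h1 : c ^ (c + 1) + (c + 1) * c ^ c ≤ (c + 1) ^ (c + 1) := by
    have := add_pow c 1 (c + 1)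
    rw [this]
    rw [Finset.sum_range_succ, Finset.sum_range_succ]
    simp only [one_pow, mul_one, Nat.choose_self, Nat.sub_self]
    have h2 : (c + 1).choose c = c + 1 := by
      rw [Nat.choose_succ_self_right]
    rw [h2]
    have : 0 ≤ ∑ x ∈ Finset.range c, c ^ x * ((c + 1).choose x) := Nat.zero_le _
    nlinarith
  have h3 : c ^ (c + 1) < (c + 1) * c ^ c := by
    rw [pow_succ, mul_comm]
    exact Nat.mul_lt_mul_of_pos_right (Nat.lt_succ_self c) (pow_pos (by omega) _)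
  omega

theorem two_pow_mul_lt (m c : ℕ) (hm : 2 ≤ m) (hc : 1 ≤ c) :
    2 ^ c * (m - 1) ^ (m * c) < m ^ (m * c) := by
  rw [pow_mul, pow_mul, ← mul_pow]
  exact Nat.pow_lt_pow_left (two_mul_pred_pow_lt m hm) (by omega)

theorem pow_le_two_pow (m e : ℕ) : m ^ e ≤ 2 ^ (Nat.clog 2 m * e) := by
  rw [pow_mul]
  exact Nat.pow_le_pow_left (Nat.le_pow_clog (by norm_num) m) e

theorem clog_pos' (m : ℕ) (hm : 2 ≤ m) : 1 ≤ Nat.clog 2 m := Nat.clog_pos (by norm_num) hm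

theorem two_pow_clog_le (m : ℕ) (hm : 2 ≤ m) : 2 ^ Nat.clog 2 m ≤ 2 * m := by
  have h1 := Nat.pow_pred_clog_lt_self (b := 2) (by norm_num) (x := m) (by omega)
  have h2 := clog_pos' m hm
  obtain ⟨c, hc⟩ : ∃ c, Nat.clog 2 m = c + 1 := ⟨Nat.clog 2 m - 1, by omega⟩
  rw [hc] at h1 ⊢
  rw [pow_succ]
  simp only [Nat.pred_succ] at h1
  omega

theorem clog_le (m : ℕ) (hm : 2 ≤ m) : Nat.clog 2 m ≤ m := by
  have h1 := Nat.pow_pred_clog_lt_self (b := 2) (by norm_num) (x := m) (by omega)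
  have h2 := clog_pos' m hm
  obtain ⟨c, hc⟩ : ∃ c, Nat.clog 2 m = c + 1 := ⟨Nat.clog 2 m - 1, by omega⟩
  rw [hc] at h1 ⊢
  simp only [Nat.pred_succ] at h1
  have h3 : c < 2 ^ c := Nat.lt_two_pow_self
  omega

theorem cube_le (w : ℕ) (hw : 1 ≤ w) : w ^ 3 ≤ 8 ^ (w - 1) := by
  obtain ⟨c, rfl⟩ : ∃ c, w = c + 1 := ⟨w - 1, by omega⟩
  rw [Nat.add_sub_cancel]
  have h : ∀ c : ℕ, c + 1 ≤ 2 ^ c := fun c => Nat.lt_two_pow_self
  calc (c + 1) ^ 3 ≤ (2 ^ c) ^ 3 := Nat.pow_le_pow_left (h c) 3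
    _ = 8 ^ c := by rw [← pow_mul, mul_comm, pow_mul]; norm_num

/-- The numerical heart of the final estimate. -/
theorem num_bound (m w : ℕ) (hm : 2 ≤ m) (hw : 1 ≤ w) :
    24 * m ^ 2 * (Nat.clog 2 m * w) ^ 3 * (2 ^ (m * (Nat.clog 2 m * w) + 2) * m ^ w) ^ 2 ≤
      ((2 * m) ^ ((m + 4) * w)) ^ 2 := by
  set L := Nat.clog 2 m with hL
  have hLm : L ≤ m := clog_le m hm
  have h2L : 2 ^ L ≤ 2 * m := two_pow_clog_le m hm
  have h1 : 2 ^ (m * (L * w)) ≤ (2 * m) ^ (m * w) := by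
    calc 2 ^ (m * (L * w)) = (2 ^ L) ^ (m * w) := by rw [← pow_mul]; congr 1; ring
      _ ≤ (2 * m) ^ (m * w) := Nat.pow_le_pow_left h2L _
  have h2 : 384 * m ^ 2 * (L * w) ^ 3 ≤ 256 ^ w * m ^ (6 * w) := by
    have e1 : (L * w) ^ 3 ≤ m ^ 3 * 8 ^ (w - 1) := by
      rw [mul_pow]
      exact Nat.mul_le_mul (Nat.pow_le_pow_left hLm 3) (cube_le w hw)
    have e2 : 8 ^ (w - 1) ≤ 256 ^ (w - 1) := Nat.pow_le_pow_left (by norm_num) _
    have e3 : 256 ^ w = 256 * 256 ^ (w - 1) := by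
      obtain ⟨c, rfl⟩ : ∃ c, w = c + 1 := ⟨w - 1, by omega⟩
      rw [Nat.add_sub_cancel, pow_succ, mul_comm]
    have e4 : m ^ 6 ≤ m ^ (6 * w) := Nat.pow_le_pow_right (by omega) (by omega)
    have e5 : 384 * m ^ 5 ≤ 256 * m ^ 6 := by
      have : m ^ 6 = m ^ 5 * m := pow_succ _ _
      rw [this]
      have h0 : 0 < m ^ 5 := pow_pos (by omega) _
      nlinarith
    calc 384 * m ^ 2 * (L * w) ^ 3 ≤ 384 * m ^ 2 * (m ^ 3 * 8 ^ (w - 1)) :=
          Nat.mul_le_mul_left _ e1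
      _ = (384 * m ^ 5) * 8 ^ (w - 1) := by ring
      _ ≤ (256 * m ^ 6) * 256 ^ (w - 1) := Nat.mul_le_mul e5 e2
      _ = 256 ^ w * m ^ 6 := by rw [e3]; ring
      _ ≤ _ := Nat.mul_le_mul_left _ e4
  calc 24 * m ^ 2 * (L * w) ^ 3 * (2 ^ (m * (L * w) + 2) * m ^ w) ^ 2
      = (384 * m ^ 2 * (L * w) ^ 3) * (2 ^ (m * (L * w))) ^ 2 * (m ^ w) ^ 2 := by
        rw [pow_add]; ring
    _ ≤ (256 ^ w * m ^ (6 * w)) * ((2 * m) ^ (m * w)) ^ 2 * (m ^ w) ^ 2 := by gcongr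
    _ = ((2 * m) ^ (m * w)) ^ 2 * (256 ^ w * (m ^ (6 * w) * (m ^ w) ^ 2)) := by ring
    _ = ((2 * m) ^ (m * w)) ^ 2 * (256 ^ w * m ^ (8 * w)) := by
        congr 2
        rw [← pow_mul, ← pow_add]
        congr 1
        ring
    _ = ((2 * m) ^ (m * w)) ^ 2 * (2 * m) ^ (8 * w) := by
        congr 1
        rw [mul_pow, pow_mul 2 8 w]
        norm_num
    _ = ((2 * m) ^ ((m + 4) * w)) ^ 2 := by
        rw [← pow_mul, ← pow_mul, ← pow_add]
        congr 1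
        ring

theorem nat_bound (m a X : ℕ) (hm : 2 ≤ m) (ha : 1 ≤ a) (hX : 1 ≤ X) :
    2 * (((m ^ 2 * X) * (a + 1) + 1) * X + m * X) ≤ 6 * m ^ 2 * a * X ^ 2 := by
  have h1 : X ≤ X ^ 2 := by nlinarith
  have h2 : 2 * (m ^ 2 * X ^ 2) * (a + 1) ≤ 4 * m ^ 2 * a * X ^ 2 := by
    have : a + 1 ≤ 2 * a := by omega
    calc 2 * (m ^ 2 * X ^ 2) * (a + 1) ≤ 2 * (m ^ 2 * X ^ 2) * (2 * a) :=
          Nat.mul_le_mul_left _ this
      _ = _ := by ring
  have h3 : 2 + 2 * m ≤ 2 * m ^ 2 := by nlinarith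
  have h4 : (2 + 2 * m) * X ≤ 2 * m ^ 2 * a * X ^ 2 := by
    calc (2 + 2 * m) * X ≤ (2 * m ^ 2) * X ^ 2 := Nat.mul_le_mul h3 h1
      _ = (2 * m ^ 2) * 1 * X ^ 2 := by ring
      _ ≤ (2 * m ^ 2) * a * X ^ 2 := by gcongr
      _ = _ := by ring
  calc 2 * (((m ^ 2 * X) * (a + 1) + 1) * X + m * X)
      = 2 * (m ^ 2 * X ^ 2) * (a + 1) + (2 + 2 * m) * X := by ring
    _ ≤ 4 * m ^ 2 * a * X ^ 2 + 2 * m ^ 2 * a * X ^ 2 := Nat.add_le_add h2 h4
    _ = _ := by ring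

variable {ι : Type*} [Fintype ι] [DecidableEq ι]

/-- A large set that is a union of atoms of `k` intersections of conditions depending on `w`
linear forms modulo `m` contains a point of small weight. -/
theorem low_point (m w k s : ℕ) (hm : 2 ≤ m) (hw : 1 ≤ w) (hk : 1 ≤ k) (hs : 1 ≤ s)
    (P : Fin k → (ι → Bool) → Prop) (hP : ∀ i, Cert m w (P i))
    (A : Finset (ι → Bool)) (hA : ∀ x ∈ A, ∀ x', (∀ i, P i x' ↔ P i x) → x' ∈ A)
    (hcard : 2 ^ Fintype.card ι ≤ 2 * s * A.card) :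
    ∃ y ∈ A, (2 * wt y : ℝ) <
      (k * (2 * m : ℝ) ^ ((m + 4) * w) * Real.log (4 * s * k)) ^ 2 := by
  haveI : NeZero m := ⟨by omega⟩
  set L := Nat.clog 2 m with hL
  have hL1 : 1 ≤ L := clog_pos' m hm
  have hLw : 1 ≤ L * w := Nat.one_le_iff_ne_zero.2 (Nat.mul_ne_zero (by omega) (by omega))
  set D := m * (L * w) with hD
  have hmR : (2 : ℝ) ≤ m := by exact_mod_cast hm
  have hkR : (1 : ℝ) ≤ k := by exact_mod_cast hk
  have hsR : (1 : ℝ) ≤ s := by exact_mod_cast hs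
  set C₀ : ℝ := 2 ^ (D + 2) * (m : ℝ) ^ w with hC₀
  have hC1 : 1 ≤ C₀ := by
    have h1 : (1 : ℝ) ≤ 2 ^ (D + 2) := one_le_pow₀ (by norm_num)
    have h2 : (1 : ℝ) ≤ (m : ℝ) ^ w := one_le_pow₀ (by linarith)
    exact one_le_mul_of_one_le_of_one_le h1 h2
  have ha4 : (4 : ℝ) ≤ 4 * s * k := by nlinarith
  have hlog1 : 1 ≤ Real.log (4 * s * k) := by
    rw [Real.le_log_iff_exp_le (by linarith)]
    have := Real.exp_one_lt_d9
    linarith
  set lg := Real.log (4 * s * k) with hlg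
  set q := ⌊C₀ * lg⌋₊ + 1 with hq
  have hqpos : 1 ≤ q := by omega
  have hq1 : C₀ * lg < q := by
    rw [hq]; push_cast
    exact Nat.lt_floor_add_one _
  have hq2 : (q : ℝ) ≤ 2 * C₀ * lg := by
    have h1 : (⌊C₀ * lg⌋₊ : ℝ) ≤ C₀ * lg := Nat.floor_le (by positivity)
    have h2 : 1 ≤ C₀ * lg := one_le_mul_of_one_le_of_one_le hC1 hlog1
    rw [hq]; push_cast
    linarith
  -- the failure rate
  have hth : theta m w D ^ q ≤ 1 / (4 * s * k) := by
    have h1 : theta m w D ≤ Real.exp (-(1 / C₀)) := by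
      unfold theta
      have := Real.add_one_le_exp (-(1 / C₀))
      rw [hC₀] at this ⊢
      linarith
    have h2 : theta m w D ^ q ≤ Real.exp (-(1 / C₀)) ^ q :=
      pow_le_pow_left₀ (theta_nonneg w D) h1 q
    refine h2.trans ?_
    rw [← Real.exp_nat_mul]
    have h3 : (q : ℝ) * -(1 / C₀) ≤ -lg := by
      have h4 : lg ≤ q * (1 / C₀) := by
        rw [mul_one_div, le_div_iff₀ (by linarith)]
        linarith [mul_comm C₀ lg]
      linarith
    refine (Real.exp_le_exp.2 h3).trans (le_of_eq ?_)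
    rw [hlg, Real.exp_neg, Real.exp_log (by linarith), one_div]
  have hA0 : (0 : ℝ) < A.card := by
    have : 0 < 2 * s * A.card := lt_of_lt_of_le (pow_pos (by norm_num) _) hcard
    have h2 : 0 < A.card := Nat.pos_of_ne_zero fun h => by simp [h] at this
    exact_mod_cast h2
  have hcard' : (k * theta m w D ^ q * 2 ^ Fintype.card ι : ℝ) < A.card := by
    have h1 : ((2 : ℝ) ^ Fintype.card ι) ≤ 2 * s * A.card := by exact_mod_cast hcard
    have h2 : (k : ℝ) * theta m w D ^ q ≤ 1 / (4 * s) := by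
      calc (k : ℝ) * theta m w D ^ q ≤ k * (1 / (4 * s * k)) :=
            mul_le_mul_of_nonneg_left hth (by linarith)
        _ = 1 / (4 * s) := by field_simp
    calc (k * theta m w D ^ q * 2 ^ Fintype.card ι : ℝ) ≤ 1 / (4 * s) * (2 * s * A.card) :=
          mul_le_mul h2 h1 (by positivity) (by positivity)
      _ = A.card / 2 := by field_simp; norm_num
      _ < A.card := by linarith
  -- parameters
  set X := L * (w * (q * k)) with hX
  have hX1 : 1 ≤ X := by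
    rw [hX]
    exact Nat.one_le_iff_ne_zero.2 (Nat.mul_ne_zero (by omega) (Nat.mul_ne_zero (by omega)
      (Nat.mul_ne_zero (by omega) (by omega))))
  have hpowX : m ^ (w * (q * k)) ≤ 2 ^ X := pow_le_two_pow m _
  have hpar : Par m w (m ^ 2 * X) D ((m ^ 2 * X) * (L * w + 1) + 1) (L * w + 1) (q * k) := by
    refine ⟨?_, ?_, Nat.lt_succ_self _, ?_⟩
    · calc m ^ w * (m - 1) ^ D ≤ 2 ^ (L * w) * (m - 1) ^ D :=
            Nat.mul_le_mul_right _ (pow_le_two_pow m w)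
        _ < m ^ D := two_pow_mul_lt m (L * w) hm hLw
    · exact lt_of_le_of_lt (pow_le_two_pow m w)
        (Nat.pow_lt_pow_right (by norm_num) (Nat.lt_succ_self _))
    · have h1 : ((m : ℝ) ^ (w * (q * k))) ≤ 2 ^ X := by exact_mod_cast hpowX
      have h2 : rho m ^ (m ^ 2 * X) = Real.exp (-(2 * X : ℝ)) := by
        unfold rho
        rw [← Real.exp_nat_mul]
        congr 1
        push_cast
        field_simp
      rw [h2]
      have he : Real.exp (-(2 * X : ℝ)) = Real.exp (-X) * Real.exp (-X) := by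
        rw [← Real.exp_add]; congr 1; ring
      have h3 : (2 : ℝ) ^ X * Real.exp (-X) ≤ 1 := by
        have h4 : Real.exp (-(X : ℝ)) = (Real.exp (-1)) ^ X := by
          rw [← Real.exp_nat_mul]; congr 1; ring
        rw [h4, ← mul_pow]
        refine pow_le_one₀ (by positivity) ?_
        rw [Real.exp_neg, ← div_eq_mul_inv, div_le_one (Real.exp_pos 1)]
        have := Real.exp_one_gt_d9
        linarith
      have h5 : Real.exp (-(X : ℝ)) ≤ 1 / 2 := by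
        have hX1R : (1 : ℝ) ≤ X := by exact_mod_cast hX1
        have h6 : Real.exp (-(X : ℝ)) ≤ Real.exp (-1) := Real.exp_le_exp.2 (by linarith)
        refine h6.trans ?_
        rw [Real.exp_neg, inv_eq_one_div]
        have := Real.exp_one_gt_d9
        exact one_div_le_one_div_of_le (by norm_num) (by linarith)
      have h7 : (0 : ℝ) < Real.exp (-X) := Real.exp_pos _
      calc (m : ℝ) ^ (w * (q * k)) * Real.exp (-(2 * X : ℝ)) ≤
            2 ^ X * (Real.exp (-X) * Real.exp (-X)) := by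
            rw [he]
            exact mul_le_mul_of_nonneg_right h1 (by positivity)
        _ = (2 ^ X * Real.exp (-X)) * Real.exp (-X) := by ring
        _ ≤ 1 * (1 / 2) := mul_le_mul h3 h5 h7.le (by norm_num)
        _ = 1 / 2 := by norm_num
  obtain ⟨y, hyA, hy⟩ := exists_low_mem (T := X) (D' := m * X) hpar
    (lt_of_le_of_lt hpowX (Nat.pow_lt_pow_right (by norm_num) (Nat.lt_succ_self _)))
    (lt_of_le_of_lt (Nat.mul_le_mul_right _ hpowX) (two_pow_mul_lt m X hm hX1)) P hP A hA hcard'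
  refine ⟨y, hyA, ?_⟩
  have h1 : 2 * wt y < 6 * m ^ 2 * (L * w) * X ^ 2 := by
    have := nat_bound m (L * w) X hm hLw hX1
    omega
  have h2 : (2 * wt y : ℝ) < 6 * m ^ 2 * (L * w) * X ^ 2 := by exact_mod_cast h1
  refine lt_of_lt_of_le h2 ?_
  have h3 : ((24 * m ^ 2 * (L * w) ^ 3 * (2 ^ (D + 2) * m ^ w) ^ 2 : ℕ) : ℝ) ≤
      ((((2 * m) ^ ((m + 4) * w)) ^ 2 : ℕ) : ℝ) := by
    exact_mod_cast num_bound m w hm hw
  push_cast at h3
  have h4 : (X : ℝ) = L * w * (q * k) := by rw [hX]; push_cast; ring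
  have hLw0 : (0 : ℝ) ≤ L * w := by positivity
  calc (6 * m ^ 2 * (L * w) * X ^ 2 : ℝ) = 6 * m ^ 2 * (L * w) ^ 3 * k ^ 2 * q ^ 2 := by
        rw [h4]; ring
    _ ≤ 6 * m ^ 2 * (L * w) ^ 3 * k ^ 2 * (2 * C₀ * lg) ^ 2 := by
        have hq0 : (0 : ℝ) ≤ q := Nat.cast_nonneg _
        gcongr
    _ = (24 * m ^ 2 * (L * w) ^ 3 * (2 ^ (D + 2) * m ^ w) ^ 2) * (k ^ 2 * lg ^ 2) := by
        rw [hC₀]; ring
    _ ≤ ((2 * m) ^ ((m + 4) * w)) ^ 2 * (k ^ 2 * lg ^ 2) :=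
        mul_le_mul_of_nonneg_right h3 (by positivity)
    _ = _ := by ring

end Pool.Agent.Helper21.LinSys
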