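import Pool.Agent.Helper21.LinSys.Tree

/-!
# Leaves on which a given set is dense
-/

set_option autoImplicit false

namespace Pool.Agent.Helper21.LinSys

open Finset

variable {ι : Type*} [Fintype ι] [DecidableEq ι] {m : ℕ}

/-- The leaves on which the set `T` has density at least `δ`. -/
def LeafD (m w R j : ℕ) (δ : ℝ) (T X : Finset (ι → Bool)) (Ps : List ((ι → Bool) → Prop))
    (x : ι → Bool) : Prop :=
  ∃ (j' : ℕ) (Γ' : AddSubgroup (ι → ZMod m)) (S' : Finset ι), j' ≤ j ∧ Nd m w R j' Γ' S' ∧
    fibz Γ' S' x x ⊆ X ∧ (∀ P ∈ Ps, ∀ x' ∈ fibz Γ' S' x x, (P x' ↔ P x)) ∧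
    δ * (fibz Γ' S' x x).card ≤ (T ∩ fibz Γ' S' x x).card

theorem LeafD.mono {w R j j₂ : ℕ} {δ : ℝ} {T X Y : Finset (ι → Bool)}
    {Ps : List ((ι → Bool) → Prop)} {x : ι → Bool} (h : LeafD m w R j δ T X Ps x) (hj : j ≤ j₂)
    (hXY : X ⊆ Y) : LeafD m w R j₂ δ T Y Ps x := by
  obtain ⟨j', Γ', S', h1, h2, h3, h4⟩ := h
  exact ⟨j', Γ', S', h1.trans hj, h2, h3.trans hXY, h4⟩

theorem LeafD.cons {w R j : ℕ} {δ : ℝ} {T X : Finset (ι → Bool)}
    {Ps : List ((ι → Bool) → Prop)}
    {x : ι → Bool} (h : LeafD m w R j δ T X Ps x) (P : (ι → Bool) → Prop)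
    (hx : x ∈ X) (hP : ∀ x' ∈ X, ∀ x'' ∈ X, (P x' ↔ P x'')) :
    LeafD m w R j δ T X (P :: Ps) x := by
  obtain ⟨j', Γ', S', h1, h2, h3, h4, h5⟩ := h
  refine ⟨j', Γ', S', h1, h2, h3, ?_, h5⟩
  intro P' hP' x' hx'
  rcases List.mem_cons.1 hP' with rfl | h
  · exact hP x' (h3 hx') x hx
  · exact h4 P' h x' hx'

theorem tree_dense [NeZero m] {w r D R t₁ J : ℕ} (hpar : Par m w r D R t₁ J) (q : ℕ)
    (δ : ℝ) (hδ : 0 ≤ δ) (T : Finset (ι → Bool))
    (Ps : List ((ι → Bool) → Prop)) (hPs : ∀ P ∈ Ps, Cert m w P) :
    ∀ (j : ℕ) (Γ : AddSubgroup (ι → ZMod m)) (S : Finset ι) (y : ι → Bool),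
      Nd m w R j Γ S → j + q * Ps.length ≤ J →
      ∃ E : Finset (ι → Bool), (E.card : ℝ) ≤ (δ + Ps.length * theta m w D ^ q) *
          (fibz Γ S y y).card ∧
        ∀ x ∈ fibz Γ S y y, x ∉ E → x ∈ T →
          LeafD m w R (j + q * Ps.length) δ T (fibz Γ S y y) Ps x := by
  classical
  induction Ps with
  | nil =>
    intro j Γ S y hnd _
    by_cases h : δ * (fibz Γ S y y).card ≤ (T ∩ fibz Γ S y y).card
    · refine ⟨∅, by
        simp only [Finset.card_empty, Nat.cast_zero, List.length_nil, zero_mul, add_zero]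
        positivity, fun x hx _ _ => ⟨j, Γ, S, by simp, hnd, ?_, by simp, ?_⟩⟩
      · rw [fibz_eq_of_mem hx]
      · rw [fibz_eq_of_mem hx]; exact h
    · push Not at h
      refine ⟨T ∩ fibz Γ S y y, by simpa using h.le, fun x hx hxE hxT => absurd ?_ hxE⟩
      exact Finset.mem_inter.2 ⟨hxT, hx⟩
  | cons P Ps ih =>
    have ih' := ih fun P' hP' => hPs P' (List.mem_cons_of_mem _ hP')
    have hPc := hPs P List.mem_cons_self
    have inner : ∀ (qc j : ℕ) (Γ : AddSubgroup (ι → ZMod m)) (S : Finset ι) (y : ι → Bool),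
        Nd m w R j Γ S → j + qc + q * Ps.length ≤ J →
        ∃ E : Finset (ι → Bool), (E.card : ℝ) ≤ ((δ + Ps.length * theta m w D ^ q) +
            theta m w D ^ qc) * (fibz Γ S y y).card ∧
          ∀ x ∈ fibz Γ S y y, x ∉ E → x ∈ T →
            LeafD m w R (j + qc + q * Ps.length) δ T (fibz Γ S y y) (P :: Ps) x := by
      intro qc
      induction qc with
      | zero =>
        intro j Γ S y _ _
        refine ⟨fibz Γ S y y, ?_, fun x hx hxE => absurd hx hxE⟩
        have h1 : (0 : ℝ) ≤ Ps.length * theta m w D ^ q :=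
          mul_nonneg (Nat.cast_nonneg _) (pow_nonneg (theta_nonneg w D) _)
        have h2 : (0 : ℝ) ≤ (fibz Γ S y y).card := Nat.cast_nonneg _
        rw [pow_zero]
        nlinarith [mul_nonneg hδ h2, mul_nonneg h1 h2]
      | succ qc ihq =>
        intro j Γ S y hnd hJ
        by_cases hall : ∀ x ∈ fibz Γ S y y, P x
        · -- `P` holds on the fibre
          obtain ⟨E, hE, hleaf⟩ := ih' j Γ S y hnd (by omega)
          refine ⟨E, hE.trans ?_, ?_⟩
          · refine mul_le_mul_of_nonneg_right ?_ (Nat.cast_nonneg _)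
            have := pow_nonneg (theta_nonneg (m := m) w D) (qc + 1)
            linarith
          · intro x hx hxE hxT
            refine ((hleaf x hx hxE hxT).cons P hx ?_).mono (by omega) (Finset.Subset.refl _)
            intro x' hx' x'' hx''
            exact ⟨fun _ => hall x'' hx'', fun _ => hall x' hx'⟩
        · push Not at hall
          obtain ⟨x₀, hx₀, hPx₀⟩ := hall
          obtain ⟨l, hl⟩ := hPc x₀ hPx₀
          obtain ⟨S', hSS, hnd'⟩ := hnd.child l
          set X := fibz Γ S y y with hX
          have hXx₀ : fibz Γ S x₀ x₀ = X := fibz_eq_of_mem hx₀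
          set W := fibz (adj Γ l) S x₀ x₀ with hW
          have hWX : W ⊆ X := fibz_self_subset (le_adj Γ l) (Finset.Subset.refl _) hx₀
          have hprog : (X.card : ℝ) ≤ (2 ^ (D + 2) * m ^ w : ℝ) * W.card := by
            have := progress Γ S x₀ l r D R t₁ hnd.1 hpar.hD hpar.ht hpar.hR (by
              have h1 : (Nat.card Γ * m ^ w : ℝ) ≤ (m : ℝ) ^ (w * J) := by
                have h2 : Nat.card Γ * m ^ w ≤ m ^ (w * J) := by
                  calc Nat.card Γ * m ^ w ≤ m ^ (w * j) * m ^ w :=
                        Nat.mul_le_mul_right _ hnd.2.1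
                    _ = m ^ (w * (j + 1)) := by rw [← pow_add]; congr 1
                    _ ≤ m ^ (w * J) := by
                        refine Nat.pow_le_pow_right (Nat.pos_of_ne_zero (NeZero.ne m)) ?_
                        exact Nat.mul_le_mul_left _ (by omega)
                exact_mod_cast h2
              exact (mul_le_mul_of_nonneg_right h1 (pow_nonneg (rho_pos m).le _)).trans hpar.hr)
            rw [hXx₀] at this
            exact_mod_cast this
          have hcl2 : ∀ x ∈ X, fibz (adj Γ l) S' x x ⊆ X := fun x hx =>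
            fibz_self_subset (le_adj Γ l) hSS hx
          obtain ⟨E, hE, hQ⟩ := assemble X W (fun x => fibz (adj Γ l) S' x x)
            (fun x _ => self_mem_fibz _ _ x) hcl2 (fun x _ x' hx' => fibz_eq_of_mem hx')
            (fun x _ hxW => fibz_self_subset le_rfl hSS hxW)
            (δ + Ps.length * theta m w D ^ q)
            (δ + Ps.length * theta m w D ^ q + theta m w D ^ qc)
            (by have := pow_nonneg (theta_nonneg (m := m) w D) qc; linarith)
            (fun x => x ∈ T → LeafD m w R (j + (qc + 1) + q * Ps.length) δ T X (P :: Ps) x) (by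
              intro x hx
              by_cases hxW : x ∈ W
              · rw [if_pos hxW]
                obtain ⟨E, hE, hleaf⟩ := ih' (j + 1) (adj Γ l) S' x hnd' (by omega)
                refine ⟨E, hE, fun x' hx' hx'E hx'T => ?_⟩
                refine ((hleaf x' hx' hx'E hx'T).cons P hx' ?_).mono (by omega) (hcl2 x hx)
                have hfalse : ∀ u ∈ fibz (adj Γ l) S' x x, ¬ P u := by
                  intro u hu
                  refine hl u fun i => ?_
                  have hu' := (fibz_self_subset le_rfl hSS hxW) hu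
                  exact (mem_fibz.1 hu').2 _ (mem_adj Γ l i)
                intro u hu v hv
                exact ⟨fun h => absurd h (hfalse u hu), fun h => absurd h (hfalse v hv)⟩
              · rw [if_neg hxW]
                obtain ⟨E, hE, hleaf⟩ := ihq (j + 1) (adj Γ l) S' x hnd' (by omega)
                refine ⟨E, hE, fun x' hx' hx'E hx'T => ?_⟩
                exact (hleaf x' hx' hx'E hx'T).mono (by omega) (hcl2 x hx))
          refine ⟨E, hE.trans ?_, fun x hx hxE hxT => hQ x hx hxE hxT⟩
          have hXW : ((X \ W).card : ℝ) = X.card - W.card := by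
            rw [Finset.card_sdiff_of_subset hWX, Nat.cast_sub (Finset.card_le_card hWX)]
          have hth : ((X \ W).card : ℝ) ≤ theta m w D * X.card := by
            rw [hXW]
            unfold theta
            have hC : (0 : ℝ) < 2 ^ (D + 2) * m ^ w := by
              have : (0 : ℝ) < m := by exact_mod_cast Nat.pos_of_ne_zero (NeZero.ne m)
              positivity
            have h5 : (1 / (2 ^ (D + 2) * m ^ w : ℝ)) * X.card ≤ W.card := by
              rw [one_div, inv_mul_le_iff₀ hC]
              exact hprog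
            linarith
          have h6 : (0 : ℝ) ≤ theta m w D ^ qc := pow_nonneg (theta_nonneg w D) _
          calc (δ + Ps.length * theta m w D ^ q : ℝ) * X.card +
                (δ + Ps.length * theta m w D ^ q + theta m w D ^ qc -
                  (δ + Ps.length * theta m w D ^ q)) * (X \ W).card
              = (δ + Ps.length * theta m w D ^ q : ℝ) * X.card +
                theta m w D ^ qc * (X \ W).card := by ring
            _ ≤ (δ + Ps.length * theta m w D ^ q : ℝ) * X.card +
                theta m w D ^ qc * (theta m w D * X.card) := by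
                have := mul_le_mul_of_nonneg_left hth h6
                linarith
            _ = _ := by rw [pow_succ]; ring
    intro j Γ S y hnd hJ
    have hlen : q * (P :: Ps).length = q + q * Ps.length := by
      rw [List.length_cons]; ring
    obtain ⟨E, hE, hleaf⟩ := inner q j Γ S y hnd (by omega)
    refine ⟨E, hE.trans (le_of_eq ?_), fun x hx hxE hxT => (hleaf x hx hxE hxT).mono (by omega)
      (Finset.Subset.refl _)⟩
    rw [List.length_cons]
    push_cast
    ring

end Pool.Agent.Helper21.LinSys
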