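import Pool.Agent.Helper21.LinSys.Tree

/-!
# Majority is not an OR of functions of few intersections of local conditions modulo m
-/

set_option autoImplicit false

namespace Pool.Agent.Helper21.LinSys

open Finset

variable {ι : Type*} [Fintype ι] [DecidableEq ι] {m : ℕ}

/-- The number of ones. -/
def wt (x : ι → Bool) : ℕ := (univ.filter fun i => x i = true).card

/-- Every fibre contains a point with few ones outside `S`. -/
theorem exists_low [NeZero m] (Γ : AddSubgroup (ι → ZMod m)) (S : Finset ι) (x : ι → Bool)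
    (D' : ℕ) (hD' : Nat.card Γ * (m - 1) ^ D' < m ^ D') :
    ∃ y ∈ fibz Γ S x x, wt y < S.card + D' := by
  classical
  have hm : 0 < m := Nat.pos_of_ne_zero (NeZero.ne m)
  obtain ⟨y, hy, hmin⟩ := Finset.exists_min_image (fibz Γ S x x) wt ⟨x, self_mem_fibz Γ S x⟩
  refine ⟨y, hy, ?_⟩
  set O := univ.filter fun i => i ∉ S ∧ y i = true with hO
  have h1 : wt y ≤ S.card + O.card := by
    unfold wt
    refine (Finset.card_le_card ?_).trans (Finset.card_union_le S O)
    intro i hi
    rw [Finset.mem_union]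
    by_cases his : i ∈ S
    · exact Or.inl his
    · exact Or.inr (Finset.mem_filter.2 ⟨Finset.mem_univ _, his, (Finset.mem_filter.1 hi).2⟩)
  by_contra hcon
  push Not at hcon
  have hOD : D' ≤ O.card := by omega
  have : Fintype Γ := Fintype.ofFinite _
  have hcard : Fintype.card Γ * (m - 1) ^ O.card < m ^ O.card := by
    rw [← Nat.card_eq_fintype_card]
    obtain ⟨e, he⟩ := Nat.exists_eq_add_of_le hOD
    rw [he, pow_add, pow_add, ← mul_assoc]
    have h2 : (m - 1) ^ e ≤ m ^ e := Nat.pow_le_pow_left (Nat.sub_le _ _) _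
    calc Nat.card Γ * (m - 1) ^ D' * (m - 1) ^ e ≤ Nat.card Γ * (m - 1) ^ D' * m ^ e :=
          Nat.mul_le_mul_left _ h2
      _ < m ^ D' * m ^ e := Nat.mul_lt_mul_of_pos_right hD' (pow_pos hm _)
  obtain ⟨b, hb⟩ := exists_meet O (fun L : Γ => (L : ι → ZMod m)) hcard
  obtain ⟨z, hz, hzO, hzL⟩ := exists_ne Γ y O b fun L hL => hb ⟨L, hL⟩
  have hzf : z ∈ fibz Γ S x x := by
    rw [mem_fibz] at hy ⊢
    refine ⟨fun i hi => ?_, fun L hL => (hzL L hL).trans (hy.2 L hL)⟩
    rw [hzO i fun hc => (Finset.mem_filter.1 hc).2.1 hi]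
    exact hy.1 i hi
  have hlt : wt z < wt y := by
    unfold wt
    refine Finset.card_lt_card ⟨?_, ?_⟩
    · intro i hi
      rw [Finset.mem_filter] at hi ⊢
      refine ⟨Finset.mem_univ _, ?_⟩
      by_cases hiO : i ∈ O
      · exact (Finset.mem_filter.1 hiO).2.2
      · rw [← hzO i hiO]; exact hi.2
    · intro hsub
      apply hz
      funext i
      by_cases hiO : i ∈ O
      · have hyi := (Finset.mem_filter.1 hiO).2.2
        have := hsub (Finset.mem_filter.2 ⟨Finset.mem_univ i, hyi⟩)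
        rw [(Finset.mem_filter.1 this).2, hyi]
      · exact hzO i hiO
  exact absurd (hmin z hzf) (not_le.2 hlt)

/-- The main combinatorial statement: a large set that is a union of atoms of `P 0, …, P (k-1)`
contains a point of small weight. -/
theorem exists_low_mem [NeZero m] {w r D R t₁ q k T D' : ℕ}
    (hpar : Par m w r D R t₁ (q * k))
    (hT : m ^ (w * (q * k)) < 2 ^ (T + 1))
    (hD' : m ^ (w * (q * k)) * (m - 1) ^ D' < m ^ D')
    (P : Fin k → (ι → Bool) → Prop) (hP : ∀ i, Cert m w (P i))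
    (A : Finset (ι → Bool)) (hA : ∀ x ∈ A, ∀ x', (∀ i, P i x' ↔ P i x) → x' ∈ A)
    (hcard : (k * theta m w D ^ q * 2 ^ Fintype.card ι : ℝ) < A.card) :
    ∃ y ∈ A, wt y < R * T + D' := by
  classical
  have hm : 0 < m := Nat.pos_of_ne_zero (NeZero.ne m)
  -- the root
  have hbot : Nd m w R 0 (⊥ : AddSubgroup (ι → ZMod m)) ∅ := by
    refine ⟨fun L hL => Or.inl ?_, by simp, 0, by simp, ?_⟩
    · rw [AddSubgroup.mem_bot] at hL
      rw [hL]
      exact (sup m ∅).zero_mem
    · rw [pow_zero]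
      exact Nat.card_pos
  obtain ⟨E, hE, hleaf⟩ := tree hpar q (List.ofFn P) (by
    intro Q hQ
    rw [List.mem_ofFn] at hQ
    obtain ⟨i, rfl⟩ := hQ
    exact hP i) 0 ⊥ ∅ (fun _ => false) hbot (by rw [List.length_ofFn]; omega)
  have huniv : fibz (⊥ : AddSubgroup (ι → ZMod m)) ∅ (fun _ => false) (fun _ => false) = univ := by
    ext x
    simp only [mem_fibz, Finset.notMem_empty, false_imp_iff, implies_true, true_and,
      AddSubgroup.mem_bot, forall_eq, ev_zero, Finset.mem_univ]
  rw [huniv, List.length_ofFn, Finset.card_univ, Fintype.card_fun, Fintype.card_bool] at hE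
  have hEA : E.card < A.card := by
    have : (E.card : ℝ) < A.card := by
      refine lt_of_le_of_lt hE ?_
      push_cast
      exact hcard
    exact_mod_cast this
  obtain ⟨x, hxA, hxE⟩ := Finset.exists_mem_notMem_of_card_lt_card hEA
  obtain ⟨j', Γ', S', hj', hnd, -, hconst⟩ := hleaf x (by rw [huniv]; exact Finset.mem_univ _) hxE
  obtain ⟨-, hΓ, t, htS, ht2⟩ := hnd
  rw [List.length_ofFn, zero_add] at hj'
  have hΓ' : Nat.card Γ' ≤ m ^ (w * (q * k)) :=
    hΓ.trans (Nat.pow_le_pow_right hm (Nat.mul_le_mul_left _ hj'))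
  have htT : t ≤ T := by
    have h1 : 2 ^ t < 2 ^ (T + 1) := by
      calc 2 ^ t ≤ Nat.card (Γ' ⊓ sup m S' : AddSubgroup (ι → ZMod m)) := ht2
        _ ≤ Nat.card Γ' := card_le_of_le inf_le_left
        _ ≤ m ^ (w * (q * k)) := hΓ'
        _ < 2 ^ (T + 1) := hT
    have := (Nat.pow_lt_pow_iff_right (by norm_num : 1 < 2)).1 h1
    omega
  obtain ⟨y, hy, hwt⟩ := exists_low Γ' S' x D'
    (lt_of_le_of_lt (Nat.mul_le_mul_right _ hΓ') hD')
  refine ⟨y, hA x hxA y fun i => ?_, ?_⟩
  · exact hconst (P i) ((List.mem_ofFn).2 ⟨i, rfl⟩) y hy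
  · have : S'.card ≤ R * T := htS.trans (Nat.mul_le_mul_left _ htT)
    omega

end Pool.Agent.Helper21.LinSys
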