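import Pool.Agent.Helper21.LinSys.Dense
import Pool.Agent.Helper21.LinSys.Majority

/-!
# Existence of dense leaves, and their description as fibres of a sum in a finite group
-/

set_option autoImplicit false
set_option linter.unusedSectionVars false

namespace Pool.Agent.Helper21.LinSys

open Finset

section
variable {ι : Type*} [Fintype ι] [DecidableEq ι] {m : ℕ}

theorem exists_dense_leaf [NeZero m] {w r D R t₁ q k T₀ : ℕ}
    (hpar : Par m w r D R t₁ (q * k))
    (hT : m ^ (w * (q * k)) < 2 ^ (T₀ + 1))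
    (P : Fin k → (ι → Bool) → Prop) (hP : ∀ i, Cert m w (P i))
    (δ : ℝ) (hδ : 0 ≤ δ) (A : Finset (ι → Bool))
    (hcard : ((δ + k * theta m w D ^ q) * 2 ^ Fintype.card ι : ℝ) < A.card) :
    ∃ x ∈ A, ∃ (Γ : AddSubgroup (ι → ZMod m)) (S : Finset ι),
      Nat.card Γ ≤ m ^ (w * (q * k)) ∧ S.card ≤ R * T₀ ∧
      (∀ i, ∀ x' ∈ fibz Γ S x x, (P i x' ↔ P i x)) ∧
      δ * (fibz Γ S x x).card ≤ (A ∩ fibz Γ S x x).card ∧
      (2 : ℝ) ^ Sᶜ.card ≤ 2 * Nat.card Γ * (fibz Γ S x x).card := by
  classical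
  have hm : 0 < m := Nat.pos_of_ne_zero (NeZero.ne m)
  -- the root
  have hbot : Nd m w R 0 (⊥ : AddSubgroup (ι → ZMod m)) ∅ := by
    refine ⟨fun L hL => Or.inl ?_, by simp, 0, by simp, ?_⟩
    · rw [AddSubgroup.mem_bot] at hL
      rw [hL]
      exact (sup m ∅).zero_mem
    · rw [pow_zero]
      exact Nat.card_pos
  obtain ⟨E, hE, hleaf⟩ := tree_dense hpar q δ hδ A (List.ofFn P) (by
    intro Q hQ
    rw [List.mem_ofFn] at hQ
    obtain ⟨i, rfl⟩ := hQ
    exact hP i) 0 ⊥ ∅ (fun _ => false) hbot (by rw [List.length_ofFn]; omega)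
  have huniv : fibz (⊥ : AddSubgroup (ι → ZMod m)) ∅ (fun _ => false) (fun _ => false) = univ := by
    ext x
    simp only [mem_fibz, Finset.notMem_empty, false_imp_iff, implies_true, true_and,
      AddSubgroup.mem_bot, forall_eq, ev_zero, Finset.mem_univ]
  rw [huniv, List.length_ofFn, Finset.card_univ, Fintype.card_fun, Fintype.card_bool] at hE
  have hEA : E.card < A.card := by
    have : (E.card : ℝ) < A.card := by
      refine lt_of_le_of_lt hE ?_
      push_cast
      exact hcard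
    exact_mod_cast this
  obtain ⟨x, hxA, hxE⟩ := Finset.exists_mem_notMem_of_card_lt_card hEA
  obtain ⟨j', Γ', S', hj', hnd, -, hconst, hdense⟩ :=
    hleaf x (by rw [huniv]; exact Finset.mem_univ _) hxE hxA
  obtain ⟨hreg, hΓ, t, htS, ht2⟩ := hnd
  rw [List.length_ofFn, zero_add] at hj'
  have hΓ' : Nat.card Γ' ≤ m ^ (w * (q * k)) :=
    hΓ.trans (Nat.pow_le_pow_right hm (Nat.mul_le_mul_left _ hj'))
  have htT : t ≤ T₀ := by
    have h1 : 2 ^ t < 2 ^ (T₀ + 1) := by
      calc 2 ^ t ≤ Nat.card (Γ' ⊓ sup m S' : AddSubgroup (ι → ZMod m)) := ht2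
        _ ≤ Nat.card Γ' := card_le_of_le inf_le_left
        _ ≤ m ^ (w * (q * k)) := hΓ'
        _ < 2 ^ (T₀ + 1) := hT
    have := (Nat.pow_lt_pow_iff_right (by norm_num : 1 < 2)).1 h1
    omega
  refine ⟨x, hxA, Γ', S', hΓ', htS.trans (Nat.mul_le_mul_left _ htT), ?_, hdense, ?_⟩
  · exact fun i y hy => hconst (P i) ((List.mem_ofFn).2 ⟨i, rfl⟩) y hy
  · -- the size of the leaf
    have hsize := card_fibz Γ' S' x x R hreg fun _ _ _ => rfl
    have ht₁ : 1 ≤ t₁ := by
      by_contra h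
      have h0 : t₁ = 0 := by omega
      have := hpar.ht
      rw [h0, pow_zero] at this
      have h1 : 0 < m ^ w := pow_pos hm w
      omega
    have hrR : r ≤ R := by
      have := hpar.hR
      nlinarith
    have hρ : rho m ^ R ≤ rho m ^ r :=
      pow_le_pow_of_le_one (rho_pos m).le (rho_le_one m) hrR
    have hcardR : (Nat.card Γ' : ℝ) ≤ (m : ℝ) ^ (w * (q * k)) := by exact_mod_cast hΓ'
    have h1 : (Nat.card Γ' : ℝ) * rho m ^ R ≤ 1 / 2 := by
      calc (Nat.card Γ' : ℝ) * rho m ^ R ≤ (m : ℝ) ^ (w * (q * k)) * rho m ^ r :=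
            mul_le_mul hcardR hρ (pow_nonneg (rho_pos m).le _) (by positivity)
        _ ≤ 1 / 2 := hpar.hr
    have h2 : (1 : ℝ) ≤ Nat.card (Γ' ⊓ sup m S' : AddSubgroup (ι → ZMod m)) := by
      exact_mod_cast Nat.one_le_iff_ne_zero.2 (Nat.card_pos (α := (Γ' ⊓ sup m S' :
        AddSubgroup (ι → ZMod m)))).ne'
    have h3 := (abs_le.1 hsize).1
    have h4 : (0 : ℝ) < 2 ^ S'ᶜ.card := by positivity
    nlinarith [mul_le_mul_of_nonneg_right h1 h4.le, mul_le_mul_of_nonneg_right h2 h4.le]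

end

theorem finite_hom (m : ℕ) [NeZero m] (Γ : Type*) [AddCommGroup Γ] [Finite Γ] :
    Finite (Γ →+ ZMod m) :=
  Finite.of_injective (fun f => (f : Γ → ZMod m)) DFunLike.coe_injective

theorem card_hom_le (m : ℕ) [NeZero m] (Γ : Type*) [AddCommGroup Γ] [Finite Γ] :
    Nat.card (Γ →+ ZMod m) ≤ Nat.card Γ := by
  classical
  have : Fintype Γ := Fintype.ofFinite Γ
  have h1 : Nat.card (Γ →+ ZMod m) ≤ Nat.card (AddChar Γ ℂ) := by
    refine Nat.card_le_card_of_injective
      (fun f => (ZMod.stdAddChar (N := m)).compAddMonoidHom f) ?_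
    intro f g hfg
    ext a
    have := congrArg (fun ψ : AddChar Γ ℂ => ψ a) hfg
    simp only [AddChar.compAddMonoidHom_apply] at this
    exact ZMod.injective_stdAddChar this
  rwa [Nat.card_eq_fintype_card (α := AddChar Γ ℂ), AddChar.card_eq,
    ← Nat.card_eq_fintype_card] at h1

section
variable {ι : Type} [Fintype ι] [DecidableEq ι] {m : ℕ}

/-- The point of the subcube through `x` with fixed coordinates `S` given by the set `z`. -/
def pt (S : Finset ι) (x : ι → Bool) (z : Finset {i // i ∉ S}) : ι → Bool :=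
  fun i => if h : i ∉ S then decide (⟨i, h⟩ ∈ z) else x i

theorem pt_of_mem {S : Finset ι} {x : ι → Bool} {z : Finset {i // i ∉ S}} {i : ι} (h : i ∈ S) :
    pt S x z i = x i := by
  unfold pt
  rw [dif_neg (by simpa using h)]

theorem pt_of_notMem {S : Finset ι} {x : ι → Bool} {z : Finset {i // i ∉ S}} {i : ι}
    (h : i ∉ S) : pt S x z i = decide (⟨i, h⟩ ∈ z) := by
  unfold pt
  rw [dif_pos h]

theorem pt_injective (S : Finset ι) (x : ι → Bool) : Function.Injective (pt S x) := by
  intro z z' h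
  ext ⟨i, hi⟩
  have := congrFun h i
  rw [pt_of_notMem hi, pt_of_notMem hi] at this
  simpa using this

theorem exists_pt (S : Finset ι) (x u : ι → Bool) (hu : ∀ i ∈ S, u i = x i) :
    ∃ z, pt S x z = u := by
  classical
  refine ⟨univ.filter fun i : {i // i ∉ S} => u i = true, ?_⟩
  funext i
  by_cases h : i ∈ S
  · rw [pt_of_mem h, hu i h]
  · rw [pt_of_notMem h]
    simp

/-- A sum over the true coordinates of a point of the subcube. -/
theorem sum_pt {M : Type*} [AddCommMonoid M] (S : Finset ι) (x : ι → Bool)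
    (z : Finset {i // i ∉ S}) (f : ι → M) :
    (∑ i, if pt S x z i = true then f i else 0) =
      (∑ i ∈ S, if x i = true then f i else 0) + ∑ i ∈ z, f i := by
  classical
  rw [← Finset.sum_add_sum_compl S]
  congr 1
  · exact Finset.sum_congr rfl fun i hi => by rw [pt_of_mem hi]
  · have h1 : ∀ i ∈ Sᶜ, (if pt S x z i = true then f i else 0) =
        if h : i ∉ S then (if (⟨i, h⟩ : {i // i ∉ S}) ∈ z then f i else 0) else 0 := by
      intro i hi
      have hi' : i ∉ S := by simpa using hi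
      rw [dif_pos hi', pt_of_notMem hi']
      by_cases h : (⟨i, hi'⟩ : {i // i ∉ S}) ∈ z <;> simp [h]
    rw [Finset.sum_congr rfl h1]
    have h2 : (∑ i ∈ Sᶜ, if h : i ∉ S then
        (if (⟨i, h⟩ : {i // i ∉ S}) ∈ z then f i else 0) else 0) =
        ∑ i : {i // i ∉ S}, if i ∈ z then f i else 0 := by
      rw [← Finset.sum_subtype (p := fun i => i ∉ S) Sᶜ (fun i => by simp)
        (fun i => if h : i ∉ S then
        (if (⟨i, h⟩ : {i // i ∉ S}) ∈ z then f i else 0) else 0) |>.symm]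
      exact Finset.sum_congr rfl fun i _ => by
        rw [dif_pos i.2]
    rw [h2, Finset.sum_ite_mem, Finset.univ_inter]

theorem wt_pt (S : Finset ι) (x : ι → Bool) (z : Finset {i // i ∉ S}) :
    wt (pt S x z) = (∑ i ∈ S, if x i = true then 1 else 0) + z.card := by
  unfold wt
  rw [Finset.card_filter, sum_pt S x z fun _ => (1 : ℕ)]
  simp

/-- The group of values. -/
abbrev Val (Γ : AddSubgroup (ι → ZMod m)) := ↥Γ →+ ZMod m

/-- The coefficient of the coordinate `i` in all forms. -/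
def coef (Γ : AddSubgroup (ι → ZMod m)) (i : ι) : Val Γ :=
  (Pi.evalAddMonoidHom (fun _ : ι => ZMod m) i).comp Γ.subtype

theorem coef_apply (Γ : AddSubgroup (ι → ZMod m)) (i : ι) (L : Γ) :
    coef Γ i L = (L : ι → ZMod m) i := rfl

/-- The value to be attained. -/
def target (Γ : AddSubgroup (ι → ZMod m)) (S : Finset ι) (x : ι → Bool) : Val Γ :=
  (∑ i, if x i = true then coef Γ i else 0) - ∑ i ∈ S, if x i = true then coef Γ i else 0

theorem sum_coef_apply (Γ : AddSubgroup (ι → ZMod m)) (x : ι → Bool) (L : Γ) :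
    (∑ i, if x i = true then coef Γ i else 0 : Val Γ) L = ev (L : ι → ZMod m) x := by
  rw [AddMonoidHom.finsetSum_apply]
  unfold ev
  refine Finset.sum_congr rfl fun i _ => ?_
  by_cases h : x i = true
  · rw [if_pos h, if_pos h, coef_apply]
  · rw [if_neg h, if_neg h, AddMonoidHom.zero_apply]

theorem mem_fibz_pt (Γ : AddSubgroup (ι → ZMod m)) (S : Finset ι) (x : ι → Bool)
    (z : Finset {i // i ∉ S}) :
    pt S x z ∈ fibz Γ S x x ↔ ∑ i ∈ z, coef Γ i = target Γ S x := by
  rw [mem_fibz]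
  have h1 : (∑ i ∈ z, coef Γ i = target Γ S x) ↔
      (∑ i, if pt S x z i = true then coef Γ i else 0 : Val Γ) =
        ∑ i, if x i = true then coef Γ i else 0 := by
    rw [sum_pt S x z (coef Γ)]
    unfold target
    constructor
    · intro h; rw [h]; abel
    · intro h; rw [← h]; abel
  rw [h1]
  constructor
  · rintro ⟨-, h⟩
    ext L
    rw [sum_coef_apply, sum_coef_apply]
    exact h L L.2
  · intro h
    refine ⟨fun i hi => pt_of_mem hi, fun L hL => ?_⟩
    have := DFunLike.congr_fun h ⟨L, hL⟩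
    rwa [sum_coef_apply, sum_coef_apply] at this

/-- Sets of points of a leaf, as sets of subsets of the set of free coordinates. -/
theorem card_pullback (Γ : AddSubgroup (ι → ZMod m)) (S : Finset ι) (x : ι → Bool)
    (A : Finset (ι → Bool)) :
    (univ.filter fun z : Finset {i // i ∉ S} => pt S x z ∈ A ∩ fibz Γ S x x).card =
      (A ∩ fibz Γ S x x).card := by
  classical
  rw [← Finset.card_image_of_injective _ (pt_injective S x)]
  congr 1
  ext u
  rw [Finset.mem_image]
  constructor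
  · rintro ⟨z, hz, rfl⟩
    exact (Finset.mem_filter.1 hz).2
  · intro hu
    obtain ⟨z, rfl⟩ := exists_pt S x u (mem_fibz.1 (Finset.mem_inter.1 hu).2).1
    exact ⟨z, Finset.mem_filter.2 ⟨Finset.mem_univ _, hu⟩, rfl⟩

end

end Pool.Agent.Helper21.LinSys
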