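import Pool.Agent.Helper21.LinSys.Bound

/-!
# Circuits whose bottom gates are functions of few sums modulo m
-/

set_option autoImplicit false

namespace Pool.Agent.Helper21.LinSys

/-- `f` is an arbitrary function of `w` linear sums modulo `m` of its `n` Boolean inputs; that is,
`f` is computed by an arbitrary gate of fan-in `w` whose inputs are (general) `MOD_m` gates reading
the inputs, each with arbitrary multiplicities. -/
def ModLocal (m w n : ℕ) (f : (Fin n → Bool) → Bool) : Prop :=
  ∃ (a : Fin w → Fin n → ZMod m) (g : (Fin w → ZMod m) → Bool),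
    ∀ x, f x = g fun j => ∑ i, if x i = true then a j i else 0

/-- `P` is computed by an `AND` gate of unbounded fan-in whose inputs are `ModLocal`. -/
def AndOfModLocal (m w n : ℕ) (P : (Fin n → Bool) → Bool) : Prop :=
  ∃ 𝒞 : Set ((Fin n → Bool) → Bool), (∀ f ∈ 𝒞, ModLocal m w n f) ∧
    ∀ x, P x = true ↔ ∀ f ∈ 𝒞, f x = true

theorem AndOfModLocal.cert {m w n : ℕ} {P : (Fin n → Bool) → Bool} (h : AndOfModLocal m w n P) :
    Cert m w fun x => P x = true := by
  obtain ⟨𝒞, hloc, hP⟩ := h
  intro x hx
  have hx : ¬ (P x = true) := hx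
  rw [hP] at hx
  push Not at hx
  obtain ⟨f, hf, hfx⟩ := hx
  obtain ⟨a, g, hfg⟩ := hloc f hf
  refine ⟨a, fun x' hx' hPx' => ?_⟩
  have hPx' : P x' = true := hPx'
  apply hfx
  rw [hP] at hPx'
  rw [← hPx' f hf, hfg, hfg]
  congr 1
  funext j
  exact (hx' j).symm

/-- Half of the points have at least half of their coordinates equal to `1`. -/
theorem two_pow_le (n : ℕ) :
    2 ^ n ≤ 2 * (Finset.univ.filter fun x : Fin n → Bool => n ≤ 2 * wt x).card := by
  classical
  set U := Finset.univ.filter fun x : Fin n → Bool => n ≤ 2 * wt x with hU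
  have hwt : ∀ x : Fin n → Bool, wt (fun i => !x i) = n - wt x := by
    intro x
    have h1 : wt (fun i => !x i) + wt x = n := by
      unfold wt
      have h2 : (Finset.univ.filter fun i => (!x i) = true) =
          Finset.univ.filter fun i => ¬ x i = true := by
        ext i; simp
      rw [h2, add_comm, Finset.card_filter_add_card_filter_not, Finset.card_univ,
        Fintype.card_fin]
    omega
  have hle : ∀ x : Fin n → Bool, wt x ≤ n := by
    intro x
    unfold wt
    exact (Finset.card_filter_le _ _).trans (by simp)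
  have hcompl : Uᶜ.card ≤ U.card := by
    refine Finset.card_le_card_of_injOn (fun x i => !x i) ?_ ?_
    · intro x hx
      simp only [hU, Finset.coe_compl, Set.mem_compl_iff, Finset.mem_coe, Finset.mem_filter,
        Finset.mem_univ, true_and] at hx ⊢
      rw [hwt x]
      have := hle x
      omega
    · intro x _ y _ hxy
      funext i
      have := congrFun hxy i
      simpa using this
  have h3 : U.card + Uᶜ.card = 2 ^ n := by
    rw [Finset.card_add_card_compl, Fintype.card_fun, Fintype.card_bool, Fintype.card_fin]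
  omega

theorem majority_bound (m w k s n : ℕ) (hm : 2 ≤ m) (hw : 1 ≤ w) (hk : 1 ≤ k)
    (P : Fin s → Fin k → (Fin n → Bool) → Bool)
    (hP : ∀ i j, Cert m w fun x => P i j x = true)
    (g : Fin s → (Fin k → Bool) → Bool)
    (hmaj : ∀ x : Fin n → Bool, (∃ i, g i (fun j => P i j x) = true) ↔ n ≤ 2 * wt x) :
    Real.sqrt n ≤ k * (2 * m : ℝ) ^ ((m + 4) * w) * Real.log (4 * s * k) := by
  classical
  -- there is at least one term
  have hs : 1 ≤ s := by
    have h1 : n ≤ 2 * wt (fun _ : Fin n => true) := by
      unfold wt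
      simp
      omega
    obtain ⟨i, -⟩ := (hmaj _).2 h1
    have := i.2
    omega
  -- a term that is true at many points
  set T : Fin s → Finset (Fin n → Bool) := fun i =>
    Finset.univ.filter fun x => g i (fun j => P i j x) = true with hT
  have hcover : (Finset.univ.filter fun x : Fin n → Bool => n ≤ 2 * wt x) ⊆
      Finset.univ.biUnion T := by
    intro x hx
    rw [Finset.mem_filter] at hx
    obtain ⟨i, hi⟩ := (hmaj x).2 hx.2
    exact Finset.mem_biUnion.2 ⟨i, Finset.mem_univ _, Finset.mem_filter.2 ⟨Finset.mem_univ _, hi⟩⟩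
  have hex : ∃ i : Fin s, 2 ^ n ≤ 2 * s * (T i).card := by
    by_contra hcon
    push Not at hcon
    have h1 : (Finset.univ.filter fun x : Fin n → Bool => n ≤ 2 * wt x).card ≤
        ∑ i, (T i).card := (Finset.card_le_card hcover).trans Finset.card_biUnion_le
    have h2 := two_pow_le n
    have h3 : s * 2 ^ n ≤ s * (2 * ∑ i, (T i).card) :=
      Nat.mul_le_mul_left _ (h2.trans (Nat.mul_le_mul_left _ h1))
    have h4 : ∑ i : Fin s, (2 * s * (T i).card) < ∑ _i : Fin s, 2 ^ n := by
      refine Finset.sum_lt_sum_of_nonempty ?_ fun i _ => hcon i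
      exact ⟨⟨0, by omega⟩, Finset.mem_univ _⟩
    rw [← Finset.mul_sum, Finset.sum_const, Finset.card_univ, Fintype.card_fin, smul_eq_mul] at h4
    have h5 : s * (2 * ∑ i, (T i).card) = 2 * s * ∑ i, (T i).card := by ring
    omega
  obtain ⟨i, hi⟩ := hex
  obtain ⟨y, hy, hlt⟩ := low_point m w k s hm hw hk hs (fun j x => P i j x = true)
    (fun j => hP i j) (T i) (by
      intro x hx x' hxx'
      rw [hT, Finset.mem_filter] at hx ⊢
      refine ⟨Finset.mem_univ _, ?_⟩
      rw [← hx.2]
      congr 1
      funext j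
      have := hxx' j
      exact Bool.eq_iff_iff.2 this) (by rw [Fintype.card_fin]; exact hi)
  have hyn : n ≤ 2 * wt y := (hmaj y).1 ⟨i, (Finset.mem_filter.1 hy).2⟩
  have hynR : (n : ℝ) ≤ 2 * wt y := by exact_mod_cast hyn
  refine Real.sqrt_le_iff.2 ⟨?_, (hynR.trans hlt.le)⟩
  have h4 : (1 : ℝ) ≤ 4 * s * k := by
    have h1 : (1 : ℝ) ≤ s := by exact_mod_cast hs
    have h2 : (1 : ℝ) ≤ k := by exact_mod_cast hk
    nlinarith
  have := Real.log_nonneg h4
  positivity

end Pool.Agent.Helper21.LinSys
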