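import Pool.Agent.Helper21.LinSys.DenseLeaf
import Pool.Agent.Helper21.LinSys.Bound
import Pool.Agent.RS.Circuit

/-!
# Reduction of the joint lower bound to the one-sided Razborov-Smolensky bound on a fibre
-/

set_option autoImplicit false
set_option linter.unusedSectionVars false

namespace Pool.Agent.Helper21.LinSys

open Finset Pool.Agent.RS

/-- The one-sided Razborov-Smolensky bound on a fibre of a sum in a finite group. -/
def CoreStatement (p m d K : ℕ) : Prop :=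
  ∀ (I V : Type) [Fintype I] [DecidableEq I] [Fintype V] [DecidableEq V] (s : ℕ)
    (C : Circuit V s) (inp : Finset I → V → Bool),
    (∀ v, (∃ b, ∀ z, inp z v = b) ∨ (∃ i, ∀ z, inp z v = decide (i ∈ z))) →
    ∀ (G : Type) [AddCommGroup G] [Fintype G] [DecidableEq G] (g : I → G),
      (∀ i, m • g i = 0) →
      ∀ (c : G) (k : ℕ), (∀ z, ∑ i ∈ z, g i = c → C.Accepts p (inp z) → k ≤ z.card) →
      ∀ (T : Finset (Finset I)),
        (∀ z ∈ T, z.card = k ∧ ∑ i ∈ z, g i = c ∧ C.Accepts p (inp z)) →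
      ∀ lam : ℕ, 1 ≤ lam → 2 ^ Fintype.card I ≤ 2 ^ lam * T.card → Fintype.card G ≤ 2 ^ lam →
        s * (Fintype.card I + 1) ^ 2 ≤ 2 ^ lam → C.level C.out + 1 ≤ d →
        Fintype.card I < K * lam ^ (2 * d + 6)

theorem leaf_bound {p m d K : ℕ} (hcore : CoreStatement p m d K) [NeZero m] {n k s : ℕ}
    (C : (Fin k → Bool) → Circuit (Fin n ⊕ Fin k) s)
    (hlevel : ∀ b, (C b).level (C b).out + 1 ≤ d)
    (P : Fin k → (Fin n → Bool) → Bool)
    (Γ : AddSubgroup (Fin n → ZMod m)) (S : Finset (Fin n)) (x : Fin n → Bool)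
    (hconst : ∀ i, ∀ x' ∈ fibz Γ S x x, (P i x' = true ↔ P i x = true))
    (h : ℕ)
    (hrej : ∀ y, (C fun j => P j y).Accepts p (Sum.elim y fun j => P j y) → h ≤ wt y)
    (A : Finset (Fin n → Bool))
    (hA : ∀ y ∈ A, wt y = h ∧ (C fun j => P j y).Accepts p (Sum.elim y fun j => P j y))
    (lam : ℕ) (hlam : 1 ≤ lam) (h1 : 2 ^ Sᶜ.card ≤ 2 ^ lam * (A ∩ fibz Γ S x x).card)
    (h2 : Nat.card Γ ≤ 2 ^ lam) (h3 : s * (n + 1) ^ 2 ≤ 2 ^ lam)
    (hx : x ∈ A) :
    Sᶜ.card < K * lam ^ (2 * d + 6) := by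
  classical
  have : Finite (Val Γ) := finite_hom m Γ
  have : Fintype (Val Γ) := Fintype.ofFinite _
  set b : Fin k → Bool := fun j => P j x with hb
  have hPb : ∀ y ∈ fibz Γ S x x, (fun j => P j y) = b := by
    intro y hy
    funext j
    exact Bool.eq_iff_iff.2 (hconst j y hy)
  have hcardI : Fintype.card {i // i ∉ S} = Sᶜ.card := by
    rw [Fintype.card_subtype]
    congr 1
    ext i
    simp
  set a := ∑ i ∈ S, if x i = true then 1 else 0 with ha
  have hah : a ≤ h := by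
    have h5 := (hA x hx).1
    obtain ⟨z, hz⟩ := exists_pt S x x fun _ _ => rfl
    have := wt_pt S x z
    rw [hz] at this
    omega
  have key := hcore {i // i ∉ S} (Fin n ⊕ Fin k) s (C b) (fun z => Sum.elim (pt S x z) b) (by
    rintro (v | v)
    · by_cases hv : v ∈ S
      · exact Or.inl ⟨x v, fun z => pt_of_mem hv⟩
      · exact Or.inr ⟨⟨v, hv⟩, fun z => pt_of_notMem hv⟩
    · exact Or.inl ⟨b v, fun z => rfl⟩) (Val Γ) (fun i => coef Γ (i : Fin n)) (by
    intro i
    ext L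
    rw [AddMonoidHom.nsmul_apply, AddMonoidHom.zero_apply, nsmul_eq_mul, ZMod.natCast_self,
      zero_mul]) (target Γ S x) (h - a) (by
    intro z hz hacc
    have hmem := (mem_fibz_pt Γ S x z).2 hz
    have h4 := hrej (pt S x z) (by rw [hPb _ hmem]; exact hacc)
    have h5 := wt_pt S x z
    omega) (univ.filter fun z : Finset {i // i ∉ S} => pt S x z ∈ A ∩ fibz Γ S x x) (by
    intro z hz
    have hz' := (Finset.mem_filter.1 hz).2
    obtain ⟨hzA, hzf⟩ := Finset.mem_inter.1 hz'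
    obtain ⟨h4, h5⟩ := hA _ hzA
    refine ⟨?_, (mem_fibz_pt Γ S x z).1 hzf, ?_⟩
    · have h6 := wt_pt S x z
      omega
    · rw [hPb _ hzf] at h5
      exact h5) lam hlam (by
    rw [hcardI, card_pullback]
    exact h1) (by
    rw [← Nat.card_eq_fintype_card]
    exact (card_hom_le m Γ).trans h2) (by
    rw [hcardI]
    refine (Nat.mul_le_mul_left _ (Nat.pow_le_pow_left ?_ 2)).trans h3
    have := Finset.card_le_univ Sᶜ
    rw [Fintype.card_fin] at this
    omega) (hlevel b)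
  rwa [hcardI] at key

theorem card_slice (n h : ℕ) :
    (univ.filter fun x : Fin n → Bool => wt x = h).card = n.choose h := by
  classical
  have h1 : (univ.filter fun x : Fin n → Bool => wt x = h).card =
      (Finset.powersetCard h (univ : Finset (Fin n))).card := by
    refine Finset.card_bij (fun x _ => univ.filter fun i => x i = true) ?_ ?_ ?_
    · intro x hx
      rw [Finset.mem_powersetCard]
      exact ⟨Finset.subset_univ _, (Finset.mem_filter.1 hx).2⟩
    · intro x _ y _ hxy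
      funext i
      have : i ∈ (univ.filter fun i => x i = true) ↔ i ∈ (univ.filter fun i => y i = true) := by
        rw [hxy]
      simp only [Finset.mem_filter, Finset.mem_univ, true_and] at this
      exact Bool.eq_iff_iff.2 this
    · intro S hS
      refine ⟨fun i => decide (i ∈ S), ?_, ?_⟩
      · rw [Finset.mem_filter]
        refine ⟨Finset.mem_univ _, ?_⟩
        unfold wt
        simpa using (Finset.mem_powersetCard.1 hS).2
      · ext i
        simp
  rw [h1, Finset.card_powersetCard, Finset.card_univ, Fintype.card_fin]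

theorem two_pow_le_middle (n : ℕ) : 2 ^ n ≤ (n + 1) * n.choose ((n + 1) / 2) := by
  have h0 : n.choose ((n + 1) / 2) = n.choose (n / 2) :=
    Nat.choose_symm_of_eq_add (by omega)
  rw [h0, ← Nat.sum_range_choose n]
  calc ∑ i ∈ Finset.range (n + 1), n.choose i ≤ ∑ _i ∈ Finset.range (n + 1), n.choose (n / 2) :=
        Finset.sum_le_sum fun i _ => Nat.choose_le_middle i n
    _ = (n + 1) * n.choose (n / 2) := by rw [Finset.sum_const, Finset.card_range, smul_eq_mul]

/-- One of `t` sets that cover the middle slice is large. -/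
theorem exists_large {n t : ℕ} (ht : 1 ≤ t) (T : Fin t → Finset (Fin n → Bool))
    (hT : ∀ x : Fin n → Bool, wt x = (n + 1) / 2 → ∃ i, x ∈ T i) :
    ∃ i, 2 ^ n ≤ t * (n + 1) * (T i).card := by
  classical
  by_contra hcon
  push Not at hcon
  have h1 : n.choose ((n + 1) / 2) ≤ ∑ i, (T i).card := by
    rw [← card_slice]
    refine (Finset.card_le_card (t := Finset.univ.biUnion T) ?_).trans Finset.card_biUnion_le
    intro x hx
    obtain ⟨i, hi⟩ := hT x (Finset.mem_filter.1 hx).2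
    exact Finset.mem_biUnion.2 ⟨i, Finset.mem_univ _, hi⟩
  have h2 := two_pow_le_middle n
  have h4 : ∑ i : Fin t, (t * (n + 1) * (T i).card) < ∑ _i : Fin t, 2 ^ n := by
    refine Finset.sum_lt_sum_of_nonempty ?_ fun i _ => hcon i
    exact ⟨⟨0, by omega⟩, Finset.mem_univ _⟩
  rw [← Finset.mul_sum, Finset.sum_const, Finset.card_univ, Fintype.card_fin, smul_eq_mul] at h4
  have h5 : t * 2 ^ n ≤ t * ((n + 1) * ∑ i, (T i).card) :=
    Nat.mul_le_mul_left _ (h2.trans (Nat.mul_le_mul_left _ h1))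
  have h6 : t * ((n + 1) * ∑ i, (T i).card) = t * (n + 1) * ∑ i, (T i).card := by ring
  omega

theorem joint_param {p m d K : ℕ} (hcore : CoreStatement p m d K) [NeZero m]
    {w r D R t₁ q k T₀ n s t lam : ℕ} (hpar : Par m w r D R t₁ (q * k))
    (hT : m ^ (w * (q * k)) < 2 ^ (T₀ + 1)) (ht : 1 ≤ t)
    (C : Fin t → (Fin k → Bool) → Circuit (Fin n ⊕ Fin k) s)
    (hlevel : ∀ i b, (C i b).level (C i b).out + 1 ≤ d)
    (P : Fin t → Fin k → (Fin n → Bool) → Bool)
    (hP : ∀ i j, Cert m w fun x => P i j x = true)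
    (hmaj : ∀ x : Fin n → Bool,
      (∃ i, (C i fun j => P i j x).Accepts p (Sum.elim x fun j => P i j x)) ↔ n ≤ 2 * wt x)
    (δ : ℝ) (hδ : 0 < δ) (hθ : (δ + k * theta m w D ^ q) * (t * (n + 1)) < 1)
    (hlam : 1 ≤ lam) (hlam1 : (2 : ℝ) * (m : ℝ) ^ (w * (q * k)) ≤ δ * 2 ^ lam)
    (hlam3 : s * (n + 1) ^ 2 ≤ 2 ^ lam) (hlam2 : m ^ (w * (q * k)) ≤ 2 ^ lam) :
    n < K * lam ^ (2 * d + 6) + R * T₀ := by
  classical
  set h := (n + 1) / 2 with hh
  set T : Fin t → Finset (Fin n → Bool) := fun i => univ.filter fun x =>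
    wt x = h ∧ (C i fun j => P i j x).Accepts p (Sum.elim x fun j => P i j x) with hTdef
  obtain ⟨i, hi⟩ := exists_large ht T (by
    intro x hx
    obtain ⟨i, hi⟩ := (hmaj x).2 (by omega)
    exact ⟨i, Finset.mem_filter.2 ⟨Finset.mem_univ _, hx, hi⟩⟩)
  have hpos : (0 : ℝ) < t * (n + 1) := by
    have : (1 : ℝ) ≤ t := by exact_mod_cast ht
    positivity
  have hcard : ((δ + k * theta m w D ^ q) * 2 ^ Fintype.card (Fin n) : ℝ) < (T i).card := by
    rw [Fintype.card_fin]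
    have h1 : (2 : ℝ) ^ n ≤ t * (n + 1) * (T i).card := by exact_mod_cast hi
    have hT0 : (0 : ℝ) < (T i).card := by
      rcases Nat.eq_zero_or_pos (T i).card with h0 | h0
      · rw [h0, Nat.cast_zero, mul_zero] at h1
        exact absurd h1 (not_le.2 (by positivity))
      · exact_mod_cast h0
    have h2 : 0 ≤ δ + k * theta m w D ^ q := by
      have := theta_nonneg (m := m) w D
      positivity
    calc (δ + k * theta m w D ^ q) * 2 ^ n ≤
          (δ + k * theta m w D ^ q) * (t * (n + 1) * (T i).card) :=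
          mul_le_mul_of_nonneg_left h1 h2
      _ = ((δ + k * theta m w D ^ q) * (t * (n + 1))) * (T i).card := by ring
      _ < 1 * (T i).card := mul_lt_mul_of_pos_right hθ hT0
      _ = _ := one_mul _
  obtain ⟨x, hxT, Γ, S, hΓ, hS, hconst, hdense, hsize⟩ := exists_dense_leaf hpar hT
    (fun j x => P i j x = true) (hP i) δ hδ.le (T i) hcard
  have key := leaf_bound hcore (C i) (hlevel i) (P i) Γ S x hconst h (by
    intro y hy
    have := (hmaj y).1 ⟨i, hy⟩
    omega) (T i) (fun y hy => (Finset.mem_filter.1 hy).2) lam hlam (by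
    have h1 : (2 : ℝ) ^ Sᶜ.card ≤ 2 ^ lam * (T i ∩ fibz Γ S x x).card := by
      have hΓR : (Nat.card Γ : ℝ) ≤ (m : ℝ) ^ (w * (q * k)) := by exact_mod_cast hΓ
      have hf : (0 : ℝ) ≤ (fibz Γ S x x).card := Nat.cast_nonneg _
      calc (2 : ℝ) ^ Sᶜ.card ≤ 2 * Nat.card Γ * (fibz Γ S x x).card := hsize
        _ ≤ 2 * (m : ℝ) ^ (w * (q * k)) * (fibz Γ S x x).card := by gcongr
        _ ≤ δ * 2 ^ lam * (fibz Γ S x x).card := by gcongr
        _ = 2 ^ lam * (δ * (fibz Γ S x x).card) := by ring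
        _ ≤ _ := mul_le_mul_of_nonneg_left hdense (by positivity)
    exact_mod_cast h1) (hΓ.trans hlam2) hlam3 hxT
  have h1 : n = Sᶜ.card + S.card := by
    rw [Finset.card_compl, Fintype.card_fin]
    have := Finset.card_le_univ S
    rw [Fintype.card_fin] at this
    omega
  omega

theorem const_bound (m w : ℕ) (hm : 2 ≤ m) :
    88 * (Nat.clog 2 m * w * (2 ^ (m * (Nat.clog 2 m * w)) * m ^ w)) ≤
      88 * m * (2 * m) ^ ((m + 4) * w) := by
  set L := Nat.clog 2 m with hL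
  have hLm : L ≤ m := clog_le m hm
  have h2L : 2 ^ L ≤ 2 * m := two_pow_clog_le m hm
  have h1 : 2 ^ (m * (L * w)) ≤ (2 * m) ^ (m * w) := by
    calc 2 ^ (m * (L * w)) = (2 ^ L) ^ (m * w) := by rw [← pow_mul]; congr 1; ring
      _ ≤ (2 * m) ^ (m * w) := Nat.pow_le_pow_left h2L _
  have h2 : w * m ^ w ≤ (2 * m) ^ w := by
    rw [mul_pow]
    exact Nat.mul_le_mul_right _ (Nat.lt_two_pow_self).le
  calc 88 * (L * w * (2 ^ (m * (L * w)) * m ^ w))
      = 88 * (L * (2 ^ (m * (L * w)) * (w * m ^ w))) := by ring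
    _ ≤ 88 * (m * ((2 * m) ^ (m * w) * (2 * m) ^ w)) := by gcongr
    _ = 88 * m * (2 * m) ^ (m * w + w) := by rw [pow_add]; ring
    _ ≤ 88 * m * (2 * m) ^ ((m + 4) * w) := by
        refine Nat.mul_le_mul_left _ (Nat.pow_le_pow_right (by omega) ?_)
        nlinarith

theorem joint_of_core {p m d K : ℕ} (hcore : CoreStatement p m d K) (hm : 2 ≤ m)
    (n k w s t : ℕ) (hn : 1 ≤ n) (hk : 1 ≤ k) (hw : 1 ≤ w) (hs : 1 ≤ s) (ht : 1 ≤ t)
    (C : Fin t → (Fin k → Bool) → Circuit (Fin n ⊕ Fin k) s)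
    (hlevel : ∀ i b, (C i b).level (C i b).out + 1 ≤ d)
    (P : Fin t → Fin k → (Fin n → Bool) → Bool)
    (hP : ∀ i j, Cert m w fun x => P i j x = true)
    (hmaj : ∀ x : Fin n → Bool,
      (∃ i, (C i fun j => P i j x).Accepts p (Sum.elim x fun j => P i j x)) ↔ n ≤ 2 * wt x) :
    (n : ℝ) ≤ ((88 * m * (K + 3 * m ^ 2) : ℕ) * k * (2 * m : ℝ) ^ ((m + 4) * w) *
      Real.log (s + t + n)) ^ (2 * d + 6) := by
  have : NeZero m := ⟨by omega⟩
  have hmR : (2 : ℝ) ≤ m := by exact_mod_cast hm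
  have hkR : (1 : ℝ) ≤ k := by exact_mod_cast hk
  have hsR : (1 : ℝ) ≤ s := by exact_mod_cast hs
  have htR : (1 : ℝ) ≤ t := by exact_mod_cast ht
  have hnR : (1 : ℝ) ≤ n := by exact_mod_cast hn
  have hN3 : (3 : ℝ) ≤ s + t + n := by linarith
  set lg := Real.log (s + t + n) with hlg
  have hlg1 : 1 ≤ lg := by
    rw [hlg, Real.le_log_iff_exp_le (by linarith)]
    have := Real.exp_one_lt_d9
    linarith
  have hpw : (1 : ℝ) ≤ (2 * m : ℝ) ^ ((m + 4) * w) := one_le_pow₀ (by linarith)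
  have hK1 : (1 : ℝ) ≤ (88 * m * (K + 3 * m ^ 2) : ℕ) := by
    have : 1 ≤ 88 * m * (K + 3 * m ^ 2) :=
      Nat.one_le_iff_ne_zero.2 (Nat.mul_ne_zero (by omega) (by positivity))
    exact_mod_cast this
  by_cases hkn : n ≤ k
  · -- trivial case
    have h1 : (n : ℝ) ≤ (88 * m * (K + 3 * m ^ 2) : ℕ) * k * (2 * m : ℝ) ^ ((m + 4) * w) * lg := by
      have hnk : (n : ℝ) ≤ k := by exact_mod_cast hkn
      calc (n : ℝ) ≤ 1 * k * 1 * 1 := by linarith
        _ ≤ _ := by gcongr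
    refine h1.trans (le_self_pow₀ ?_ (by omega))
    linarith
  push Not at hkn
  have hknR : (k : ℝ) ≤ n := by exact_mod_cast hkn.le
  set L := Nat.clog 2 m with hL
  have hL1 : 1 ≤ L := clog_pos' m hm
  have hLw : 1 ≤ L * w := Nat.one_le_iff_ne_zero.2 (Nat.mul_ne_zero (by omega) (by omega))
  set D := m * (L * w) with hD
  set C₀ : ℝ := 2 ^ (D + 2) * (m : ℝ) ^ w with hC₀
  have hC1 : 1 ≤ C₀ := by
    have h1 : (1 : ℝ) ≤ 2 ^ (D + 2) := one_le_pow₀ (by norm_num)
    have h2 : (1 : ℝ) ≤ (m : ℝ) ^ w := one_le_pow₀ (by linarith)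
    exact one_le_mul_of_one_le_of_one_le h1 h2
  set q := ⌊C₀ * (5 * lg)⌋₊ + 1 with hq
  have hqpos : 1 ≤ q := by omega
  have hq1 : C₀ * (5 * lg) < q := by
    rw [hq]; push_cast
    exact Nat.lt_floor_add_one _
  have hq2 : (q : ℝ) ≤ 10 * C₀ * lg := by
    have h1 : (⌊C₀ * (5 * lg)⌋₊ : ℝ) ≤ C₀ * (5 * lg) := Nat.floor_le (by positivity)
    have h2 : 1 ≤ C₀ * lg := one_le_mul_of_one_le_of_one_le hC1 hlg1
    rw [hq]; push_cast
    linarith
  have hexp : Real.exp lg = s + t + n := by rw [hlg, Real.exp_log (by linarith)]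
  -- the failure rate
  have hth : theta m w D ^ q ≤ 1 / (s + t + n : ℝ) ^ 5 := by
    have h1 : theta m w D ≤ Real.exp (-(1 / C₀)) := by
      unfold theta
      have := Real.add_one_le_exp (-(1 / C₀))
      rw [hC₀] at this ⊢
      linarith
    have h2 : theta m w D ^ q ≤ Real.exp (-(1 / C₀)) ^ q :=
      pow_le_pow_left₀ (theta_nonneg w D) h1 q
    refine h2.trans ?_
    rw [← Real.exp_nat_mul]
    have h3 : (q : ℝ) * -(1 / C₀) ≤ -(5 * lg) := by
      have h4 : 5 * lg ≤ q * (1 / C₀) := by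
        rw [mul_one_div, le_div_iff₀ (by linarith)]
        linarith [mul_comm C₀ (5 * lg)]
      linarith
    refine (Real.exp_le_exp.2 h3).trans (le_of_eq ?_)
    rw [Real.exp_neg, ← hexp, ← Real.exp_nat_mul, one_div]
    norm_num
  set N : ℝ := s + t + n with hN
  have hN0 : 0 < N := by linarith
  have ht1 : (t : ℝ) ≤ N := by linarith
  have hs1 : (s : ℝ) ≤ N := by linarith
  have hn1 : (n : ℝ) + 1 ≤ N := by linarith
  have hk1 : (k : ℝ) ≤ N := by linarith
  have h4N : (4 : ℝ) < N ^ 2 := by nlinarith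
  have h8N : (8 : ℝ) ≤ N ^ 2 := by nlinarith
  -- parameters
  set X := L * (w * (q * k)) with hX
  have hX1 : 1 ≤ X := by
    rw [hX]
    exact Nat.one_le_iff_ne_zero.2 (Nat.mul_ne_zero (by omega) (Nat.mul_ne_zero (by omega)
      (Nat.mul_ne_zero (by omega) (by omega))))
  have hLwX : L * w ≤ X := by
    rw [hX, ← mul_assoc]
    exact Nat.le_mul_of_pos_right _ (Nat.mul_pos hqpos hk)
  have hpowX : m ^ (w * (q * k)) ≤ 2 ^ X := pow_le_two_pow m _
  have hpar : Par m w (m ^ 2 * X) D ((m ^ 2 * X) * (L * w + 1) + 1) (L * w + 1) (q * k) := by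
    refine ⟨?_, ?_, Nat.lt_succ_self _, ?_⟩
    · calc m ^ w * (m - 1) ^ D ≤ 2 ^ (L * w) * (m - 1) ^ D :=
            Nat.mul_le_mul_right _ (pow_le_two_pow m w)
        _ < m ^ D := two_pow_mul_lt m (L * w) hm hLw
    · exact lt_of_le_of_lt (pow_le_two_pow m w)
        (Nat.pow_lt_pow_right (by norm_num) (Nat.lt_succ_self _))
    · have h1 : ((m : ℝ) ^ (w * (q * k))) ≤ 2 ^ X := by exact_mod_cast hpowX
      have h2 : rho m ^ (m ^ 2 * X) = Real.exp (-(2 * X : ℝ)) := by
        unfold rho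
        rw [← Real.exp_nat_mul]
        congr 1
        push_cast
        field_simp
      rw [h2]
      have he : Real.exp (-(2 * X : ℝ)) = Real.exp (-X) * Real.exp (-X) := by
        rw [← Real.exp_add]; congr 1; ring
      have h3 : (2 : ℝ) ^ X * Real.exp (-X) ≤ 1 := by
        have h4 : Real.exp (-(X : ℝ)) = (Real.exp (-1)) ^ X := by
          rw [← Real.exp_nat_mul]; congr 1; ring
        rw [h4, ← mul_pow]
        refine pow_le_one₀ (by positivity) ?_
        rw [Real.exp_neg, ← div_eq_mul_inv, div_le_one (Real.exp_pos 1)]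
        have := Real.exp_one_gt_d9
        linarith
      have h5 : Real.exp (-(X : ℝ)) ≤ 1 / 2 := by
        have hX1R : (1 : ℝ) ≤ X := by exact_mod_cast hX1
        have h6 : Real.exp (-(X : ℝ)) ≤ Real.exp (-1) := Real.exp_le_exp.2 (by linarith)
        refine h6.trans ?_
        rw [Real.exp_neg, inv_eq_one_div]
        have := Real.exp_one_gt_d9
        exact one_div_le_one_div_of_le (by norm_num) (by linarith)
      have h7 : (0 : ℝ) < Real.exp (-X) := Real.exp_pos _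
      calc (m : ℝ) ^ (w * (q * k)) * Real.exp (-(2 * X : ℝ)) ≤
            2 ^ X * (Real.exp (-X) * Real.exp (-X)) := by
            rw [he]
            exact mul_le_mul_of_nonneg_right h1 (by positivity)
        _ = (2 ^ X * Real.exp (-X)) * Real.exp (-X) := by ring
        _ ≤ 1 * (1 / 2) := mul_le_mul h3 h5 h7.le (by norm_num)
        _ = 1 / 2 := by norm_num
  set ℓ := Nat.clog 2 (s + t + n) with hℓ
  have hℓ2 : (N : ℝ) ≤ 2 ^ ℓ := by
    have : s + t + n ≤ 2 ^ ℓ := Nat.le_pow_clog (by norm_num) _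
    rw [hN]
    exact_mod_cast this
  have hℓ3 : (ℓ : ℝ) ≤ 3 * lg := by
    have h1 := Nat.pow_pred_clog_lt_self (b := 2) (by norm_num) (x := s + t + n) (by omega)
    have h2 : 1 ≤ ℓ := Nat.clog_pos (by norm_num) (by omega)
    have h3 : ((2 : ℝ) ^ (ℓ - 1)) < N := by
      rw [hN]
      have h4 : 2 ^ (ℓ - 1) < s + t + n := h1
      exact_mod_cast h4
    have h4 : ((ℓ - 1 : ℕ) : ℝ) * Real.log 2 < lg := by
      rw [← Real.log_pow, hlg]
      exact Real.log_lt_log (by positivity) h3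
    have h5 : ((ℓ - 1 : ℕ) : ℝ) = ℓ - 1 := by
      rw [Nat.cast_sub h2, Nat.cast_one]
    rw [h5] at h4
    have h6 := Real.log_two_gt_d9
    have h7 : (0 : ℝ) ≤ ℓ - 1 := by
      have : (1 : ℝ) ≤ ℓ := by exact_mod_cast h2
      linarith
    nlinarith
  set lam := X + 4 * ℓ with hlam
  have hlam2 : (2 : ℝ) ^ lam = 2 ^ X * (2 ^ ℓ) ^ 4 := by
    rw [hlam, pow_add, ← pow_mul, mul_comm ℓ 4]
  have key := joint_param hcore (T₀ := X) (lam := lam) (t₁ := L * w + 1)
    (δ := 1 / (4 * (t * (n + 1)))) hpar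
    (lt_of_le_of_lt hpowX (Nat.pow_lt_pow_right (by norm_num) (Nat.lt_succ_self _)))
    ht C hlevel P hP hmaj (by positivity) (by
      have h1 : (k : ℝ) * theta m w D ^ q * (t * (n + 1)) < 1 / 4 := by
        calc (k : ℝ) * theta m w D ^ q * (t * (n + 1))
            ≤ N * (1 / N ^ 5) * (N * N) := by
              have := theta_nonneg (m := m) w D
              gcongr
          _ = 1 / N ^ 2 := by field_simp
          _ < 1 / 4 := one_div_lt_one_div_of_lt (by norm_num) h4N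
      have h2 : 1 / (4 * (t * (n + 1) : ℝ)) * (t * (n + 1)) = 1 / 4 := by
        field_simp
      rw [add_mul, h2]
      linarith) (by omega) (by
      rw [one_div, inv_mul_eq_div, le_div_iff₀ (by positivity), hlam2]
      have h1 : ((m : ℝ) ^ (w * (q * k))) ≤ 2 ^ X := by exact_mod_cast hpowX
      calc (2 * (m : ℝ) ^ (w * (q * k))) * (4 * (t * (n + 1)))
          = (m : ℝ) ^ (w * (q * k)) * (8 * (t * (n + 1))) := by ring
        _ ≤ 2 ^ X * (N ^ 2 * (N * N)) := by gcongr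
        _ = 2 ^ X * N ^ 4 := by ring
        _ ≤ 2 ^ X * (2 ^ ℓ) ^ 4 := by gcongr) (by
      have h1 : ((s * (n + 1) ^ 2 : ℕ) : ℝ) ≤ ((2 ^ lam : ℕ) : ℝ) := by
        push_cast
        rw [hlam2]
        calc (s : ℝ) * (n + 1) ^ 2 ≤ N * N ^ 2 := by gcongr
          _ ≤ N * N ^ 2 * N := le_mul_of_one_le_right (by positivity) (by linarith)
          _ = 1 * N ^ 4 := by ring
          _ ≤ 2 ^ X * (2 ^ ℓ) ^ 4 := by
              gcongr
              exact one_le_pow₀ (by norm_num)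
      exact_mod_cast h1) (hpowX.trans (Nat.pow_le_pow_right (by norm_num) (by omega)))
  -- the final estimate
  have hlamX : X ≤ lam := by omega
  have hlam1 : 1 ≤ lam := by omega
  have hRX : ((m ^ 2 * X) * (L * w + 1) + 1) * X ≤ 3 * m ^ 2 * lam ^ (2 * d + 6) := by
    have h1 : ((m ^ 2 * X) * (L * w + 1) + 1) * X ≤ 3 * m ^ 2 * X ^ 3 := by
      have h2 : L * w + 1 ≤ 2 * X := by omega
      have h3 : 1 ≤ m ^ 2 * X ^ 2 := Nat.one_le_iff_ne_zero.2 (by positivity)
      calc ((m ^ 2 * X) * (L * w + 1) + 1) * X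
          ≤ ((m ^ 2 * X) * (2 * X) + m ^ 2 * X ^ 2) * X := by gcongr
        _ = 3 * m ^ 2 * X ^ 3 := by ring
    have h2 : X ^ 3 ≤ lam ^ (2 * d + 6) :=
      (Nat.pow_le_pow_left hlamX 3).trans (Nat.pow_le_pow_right hlam1 (by omega))
    exact h1.trans (Nat.mul_le_mul_left _ h2)
  have hfin : n ≤ (K + 3 * m ^ 2) * lam ^ (2 * d + 6) := by
    rw [add_mul]
    omega
  have hlamR : (lam : ℝ) ≤ (88 * m : ℕ) * k * (2 * m : ℝ) ^ ((m + 4) * w) * lg := by
    have hLwR : (1 : ℝ) ≤ L * w := by exact_mod_cast hLw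
    have h1 : (lam : ℝ) ≤ 22 * (L * w * C₀) * k * lg := by
      rw [hlam, hX]
      push_cast
      have h2 : (L : ℝ) * (w * (q * k)) ≤ L * (w * ((10 * C₀ * lg) * k)) := by gcongr
      have h3 : (4 : ℝ) * ℓ ≤ 12 * (1 * 1 * 1 * lg) := by linarith
      have h4 : (12 : ℝ) * (1 * 1 * 1 * lg) ≤ 12 * ((L * w) * C₀ * k * lg) := by gcongr
      nlinarith
    refine h1.trans ?_
    have h5 : (22 : ℝ) * (L * w * C₀) ≤ (88 * m : ℕ) * (2 * m : ℝ) ^ ((m + 4) * w) := by
      have h6 : ((88 * (L * w * (2 ^ (m * (L * w)) * m ^ w)) : ℕ) : ℝ) ≤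
          ((88 * m * (2 * m) ^ ((m + 4) * w) : ℕ) : ℝ) := by
        exact_mod_cast const_bound m w hm
      push_cast at h6
      rw [hC₀, hD, pow_add]
      push_cast
      linarith
    calc (22 : ℝ) * (L * w * C₀) * k * lg ≤
          ((88 * m : ℕ) * (2 * m : ℝ) ^ ((m + 4) * w)) * k * lg := by gcongr
      _ = _ := by ring
  have hfinR : (n : ℝ) ≤ (K + 3 * m ^ 2 : ℕ) * (lam : ℝ) ^ (2 * d + 6) := by
    exact_mod_cast hfin
  have hK2 : (1 : ℝ) ≤ (K + 3 * m ^ 2 : ℕ) := by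
    have : 1 ≤ K + 3 * m ^ 2 := by
      have : 0 < m ^ 2 := by positivity
      omega
    exact_mod_cast this
  calc (n : ℝ) ≤ (K + 3 * m ^ 2 : ℕ) * (lam : ℝ) ^ (2 * d + 6) := hfinR
    _ ≤ ((K + 3 * m ^ 2 : ℕ) : ℝ) ^ (2 * d + 6) * (lam : ℝ) ^ (2 * d + 6) := by
        gcongr
        exact le_self_pow₀ hK2 (by omega)
    _ = ((K + 3 * m ^ 2 : ℕ) * (lam : ℝ)) ^ (2 * d + 6) := by rw [mul_pow]
    _ ≤ ((K + 3 * m ^ 2 : ℕ) * ((88 * m : ℕ) * k * (2 * m : ℝ) ^ ((m + 4) * w) * lg)) ^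
          (2 * d + 6) := by gcongr
    _ = _ := by
        congr 1
        push_cast
        ring

end Pool.Agent.Helper21.LinSys
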