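import Pool.Agent.Helper21.LinSys.Gates

/-!
# Majority against OR of functions of few ANDs of functions of few MOD_m gates
-/

set_option autoImplicit false

namespace Pool.Agent.Helper21.LinSys.ModLayerMajority

open Pool.Agent.Helper21.LinSys

/-- Let `m ≥ 2` be an arbitrary modulus. If the majority function of `n` variables is an `OR` of
`s` functions, each an arbitrary function of `k` functions `P i j` computed by `AND` gates of
unbounded fan-in, whose inputs are arbitrary functions of `w` (general) `MOD_m` gates reading the
variables, then `√n ≤ k * (2 * m) ^ ((m + 4) * w) * log (4 * s * k)`. -/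
theorem result (m w k s n : ℕ) (hm : 2 ≤ m) (hw : 1 ≤ w) (hk : 1 ≤ k)
    (P : Fin s → Fin k → (Fin n → Bool) → Bool) (hP : ∀ i j, AndOfModLocal m w n (P i j))
    (g : Fin s → (Fin k → Bool) → Bool)
    (hmaj : ∀ x : Fin n → Bool, (∃ i, g i (fun j => P i j x) = true) ↔
      n ≤ 2 * (Finset.univ.filter fun i => x i = true).card) :
    Real.sqrt n ≤ k * (2 * m : ℝ) ^ ((m + 4) * w) * Real.log (4 * s * k) :=
  majority_bound m w k s n hm hw hk P (fun i j => (hP i j).cert) g hmaj

end Pool.Agent.Helper21.LinSys.ModLayerMajority
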