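import Pool.Agent.Helper21.LinSys.Regular

/-!
# A condition that cuts a regular fibre cuts off a positive proportion of it
-/

set_option autoImplicit false

namespace Pool.Agent.Helper21.LinSys

open Finset

variable {ι : Type*} [Fintype ι] [DecidableEq ι] {m : ℕ}

/-- Representatives: for elements of a subgroup `N` of `adj Γ l` there are representatives
indexed by `Fin w → ZMod m` modulo `Γ ⊓ N`. -/
theorem exists_reps [NeZero m] {w : ℕ} (Γ : AddSubgroup (ι → ZMod m)) (l : Fin w → ι → ZMod m)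
    (N : AddSubgroup (ι → ZMod m)) (hN : N ≤ adj Γ l) :
    ∃ (c : N → Fin w → ZMod m) (F : (Fin w → ZMod m) → ι → ZMod m),
      ∀ L : N, (L : ι → ZMod m) - F (c L) ∈ Γ ⊓ N := by
  classical
  choose c hc using fun L : N => exists_coeff Γ l L (hN L.2)
  refine ⟨c, fun d => if h : ∃ L : N, c L = d then (h.choose : ι → ZMod m) else 0, ?_⟩
  intro L
  have hex : ∃ L' : N, c L' = c L := ⟨L, rfl⟩
  beta_reduce
  rw [dif_pos hex]
  have h1 := hex.choose_spec
  set L' := hex.choose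
  refine ⟨?_, N.sub_mem L.2 L'.2⟩
  have h2 : (L : ι → ZMod m) - L' = ((L : ι → ZMod m) - ∑ j, c L j • l j) -
      ((L' : ι → ZMod m) - ∑ j, c L' j • l j) := by
    rw [h1]; abel
  rw [h2]
  exact Γ.sub_mem (hc L) (hc L')

theorem progress [NeZero m] {w : ℕ} (Γ : AddSubgroup (ι → ZMod m)) (S : Finset ι)
    (y : ι → Bool) (l : Fin w → ι → ZMod m) (r D R t₁ : ℕ)
    (hReg : Reg Γ S R) (hD : m ^ w * (m - 1) ^ D < m ^ D) (ht : m ^ w < 2 ^ t₁)
    (hR : r * t₁ < R) (hr : (Nat.card Γ * m ^ w : ℝ) * rho m ^ r ≤ 1 / 2) :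
    (fibz Γ S y y).card ≤ 2 ^ (D + 2) * m ^ w * (fibz (adj Γ l) S y y).card := by
  classical
  have hm : 0 < m := Nat.pos_of_ne_zero (NeZero.ne m)
  obtain ⟨t, htt, S', hSS, hcard, hpow, hor⟩ := regularise (adj Γ l) S r t₁
  have hHR : (S' \ S).card < R := lt_of_le_of_lt (hcard.trans (Nat.mul_le_mul_left _ htt)) hR
  -- elements of Γ supported in S'
  have hA : ∀ L ∈ Γ, L ∈ sup m S' → L ∈ sup m S := by
    intro L hL hLs
    rcases hReg L hL with h | h
    · exact h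
    · exfalso
      have h1 : off S L ≤ (S' \ S).card := by
        unfold off
        refine Finset.card_le_card fun i hi => ?_
        rw [Finset.mem_filter] at hi
        rw [Finset.mem_sdiff]
        refine ⟨?_, hi.2.1⟩
        by_contra hc
        exact hi.2.2 (hLs i hc)
      omega
  set N' : AddSubgroup (ι → ZMod m) := adj Γ l ⊓ sup m S' with hN'
  set N₀ : AddSubgroup (ι → ZMod m) := Γ ⊓ sup m S with hN₀
  have hN₀N' : N₀ ≤ N' := fun L hL => ⟨le_adj Γ l hL.1, sup_mono hSS hL.2⟩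
  obtain ⟨c, F, hF⟩ := exists_reps Γ l N' inf_le_left
  have hF' : ∀ L : N', (L : ι → ZMod m) - F (c L) ∈ N₀ := fun L =>
    ⟨(hF L).1, hA _ (hF L).1 (hF L).2.2⟩
  have hB : Nat.card N' ≤ Nat.card N₀ * m ^ w := by
    have h1 : Nat.card (N₀ × (Fin w → ZMod m)) = Nat.card N₀ * m ^ w := by
      rw [Nat.card_prod]
      congr 1
      rw [Nat.card_eq_fintype_card, Fintype.card_fun, ZMod.card, Fintype.card_fin]
    rw [← h1]
    refine Nat.card_le_card_of_injective
      (fun L : N' => ((⟨(L : ι → ZMod m) - F (c L), hF' L⟩ : N₀), c L)) ?_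
    intro L L' h
    simp only [Prod.mk.injEq, Subtype.mk.injEq] at h
    apply Subtype.ext
    have h2 := h.1
    rw [h.2] at h2
    exact sub_left_injective h2
  have hreg' : Reg (adj Γ l) S' r := by
    rcases hor with h | h
    · exact h
    · exfalso
      have h1 : Nat.card N₀ ≤ Nat.card (adj Γ l ⊓ sup m S : AddSubgroup (ι → ZMod m)) :=
        Nat.card_le_card_of_injective
          (AddSubgroup.inclusion (show N₀ ≤ adj Γ l ⊓ sup m S from
            inf_le_inf_right _ (le_adj Γ l)))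
          (AddSubgroup.inclusion_injective _)
      have h2 : 2 ^ t₁ * Nat.card (adj Γ l ⊓ sup m S : AddSubgroup (ι → ZMod m)) ≤
          m ^ w * Nat.card (adj Γ l ⊓ sup m S : AddSubgroup (ι → ZMod m)) := by
        calc 2 ^ t₁ * Nat.card (adj Γ l ⊓ sup m S : AddSubgroup (ι → ZMod m)) ≤ Nat.card N' := by
              rw [← h]; exact hpow
          _ ≤ Nat.card N₀ * m ^ w := hB
          _ ≤ _ := by rw [mul_comm]; exact Nat.mul_le_mul_left _ h1
      have h3 := Nat.le_of_mul_le_mul_right h2 Nat.card_pos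
      omega
  set H := S' \ S with hH
  -- the admissible values on H
  set A := fibz N' Hᶜ y y with hAdef
  have hAmem : ∀ z, z ∈ A ↔ (∀ i, i ∉ H → z i = y i) ∧ ∀ L ∈ N', ev L z = ev L y := by
    intro z
    rw [hAdef, mem_fibz]
    refine and_congr_left' ?_
    refine forall_congr' fun i => ?_
    rw [Finset.mem_compl]
  have hAcard : 2 ^ H.card ≤ A.card * 2 ^ D := by
    refine card_ge D H.card H A rfl ⟨y, (hAmem y).2 ⟨fun _ _ => rfl, fun _ _ => rfl⟩⟩ ?_
    intro y' hy' J hJ hJD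
    have hcardJ : Fintype.card (Fin w → ZMod m) * (m - 1) ^ J.card < m ^ J.card := by
      rw [Fintype.card_fun, ZMod.card, Fintype.card_fin]
      obtain ⟨e, he⟩ := Nat.exists_eq_add_of_le hJD
      rw [he, pow_add, pow_add, ← mul_assoc]
      have h1 : (m - 1) ^ e ≤ m ^ e := Nat.pow_le_pow_left (Nat.sub_le _ _) _
      calc m ^ w * (m - 1) ^ D * (m - 1) ^ e ≤ m ^ w * (m - 1) ^ D * m ^ e :=
            Nat.mul_le_mul_left _ h1
        _ < m ^ D * m ^ e := Nat.mul_lt_mul_of_pos_right hD (pow_pos hm _)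
    obtain ⟨b, hb⟩ := exists_meet J F hcardJ
    have hb' : ∀ L ∈ N', ∃ i ∈ J, L i = b i := by
      intro L hL
      obtain ⟨i, hiJ, hi⟩ := hb (c ⟨L, hL⟩)
      refine ⟨i, hiJ, ?_⟩
      have h2 := (hF' ⟨L, hL⟩).2 i (Finset.mem_sdiff.1 (hJ hiJ)).2
      have h3 : L i - F (c ⟨L, hL⟩) i = 0 := h2
      rw [← hi]
      exact sub_eq_zero.1 h3
    obtain ⟨z, hz, hzJ, hzL⟩ := exists_ne N' y' J b hb'
    refine ⟨z, ?_, hz, hzJ⟩
    rw [hAmem] at hy' ⊢
    refine ⟨fun i hi => ?_, fun L hL => ?_⟩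
    · rw [hzJ i fun hc => hi (hJ hc), hy'.1 i hi]
    · rw [hzL L hL, hy'.2 L hL]
  -- sizes
  have hΓ1 : (Nat.card (adj Γ l) : ℝ) ≤ Nat.card Γ * m ^ w := by
    exact_mod_cast card_adj_le Γ l
  have hρ : 0 ≤ rho m ^ r := pow_nonneg (rho_pos m).le _
  have hsmall : (Nat.card (adj Γ l) : ℝ) * rho m ^ r ≤ 1 / 2 :=
    (mul_le_mul_of_nonneg_right hΓ1 hρ).trans hr
  have hN'1 : (1 : ℝ) ≤ Nat.card N' := by exact_mod_cast (Nat.card_pos (α := N'))
  have hFz : ∀ z ∈ A, (Nat.card N' : ℝ) * 2 ^ S'ᶜ.card ≤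
      2 * (((fibz (adj Γ l) S' z y).card : ℝ) * Nat.card (adj Γ l)) := by
    intro z hz
    have h1 := card_fibz (adj Γ l) S' z y r hreg' (by
      intro L hL hLs
      exact ((hAmem z).1 hz).2 L ⟨hL, hLs⟩)
    have h2 := (abs_le.1 h1).1
    have h3 : (Nat.card (adj Γ l) : ℝ) * (2 ^ S'ᶜ.card * rho m ^ r) ≤
        (Nat.card N' : ℝ) * 2 ^ S'ᶜ.card / 2 := by
      have h4 : (0 : ℝ) ≤ 2 ^ S'ᶜ.card := by positivity
      calc (Nat.card (adj Γ l) : ℝ) * (2 ^ S'ᶜ.card * rho m ^ r) =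
          ((Nat.card (adj Γ l) : ℝ) * rho m ^ r) * 2 ^ S'ᶜ.card := by ring
        _ ≤ (1 / 2) * 2 ^ S'ᶜ.card := mul_le_mul_of_nonneg_right hsmall h4
        _ ≤ (Nat.card N' : ℝ) * 2 ^ S'ᶜ.card / 2 := by nlinarith
    linarith
  have hdisj : ∑ z ∈ A, (fibz (adj Γ l) S' z y).card ≤ (fibz (adj Γ l) S y y).card := by
    rw [← Finset.card_biUnion]
    · refine Finset.card_le_card ?_
      intro x hx
      rw [Finset.mem_biUnion] at hx
      obtain ⟨z, hz, hxz⟩ := hx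
      rw [mem_fibz] at hxz ⊢
      refine ⟨fun i hi => ?_, hxz.2⟩
      rw [hxz.1 i (hSS hi)]
      exact ((hAmem z).1 hz).1 i fun hc => (Finset.mem_sdiff.1 hc).2 hi
    · intro z hz z' hz' hzz'
      rw [Function.onFun, Finset.disjoint_left]
      intro x hx hx'
      rw [mem_fibz] at hx hx'
      apply hzz'
      funext i
      by_cases hi : i ∈ H
      · rw [← hx.1 i (Finset.mem_sdiff.1 hi).1, ← hx'.1 i (Finset.mem_sdiff.1 hi).1]
      · rw [((hAmem z).1 hz).1 i hi, ((hAmem z').1 hz').1 i hi]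
  have hcompl : S'ᶜ.card + H.card = Sᶜ.card := by
    have h1 : S'ᶜ.card + S'.card = Fintype.card ι := Finset.card_compl_add_card S'
    have h2 : Sᶜ.card + S.card = Fintype.card ι := Finset.card_compl_add_card S
    have h3 : H.card = S'.card - S.card := by rw [hH, Finset.card_sdiff_of_subset hSS]
    have h4 := Finset.card_le_card hSS
    omega
  have hlow : (Nat.card N' : ℝ) * 2 ^ Sᶜ.card ≤
      2 * 2 ^ D * (((fibz (adj Γ l) S y y).card : ℝ) * Nat.card (adj Γ l)) := by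
    have h1 : (A.card : ℝ) * ((Nat.card N' : ℝ) * 2 ^ S'ᶜ.card) ≤
        2 * (((fibz (adj Γ l) S y y).card : ℝ) * Nat.card (adj Γ l)) := by
      calc (A.card : ℝ) * ((Nat.card N' : ℝ) * 2 ^ S'ᶜ.card) =
          ∑ z ∈ A, (Nat.card N' : ℝ) * 2 ^ S'ᶜ.card := by
            rw [Finset.sum_const, nsmul_eq_mul]
        _ ≤ ∑ z ∈ A, 2 * (((fibz (adj Γ l) S' z y).card : ℝ) * Nat.card (adj Γ l)) :=
            Finset.sum_le_sum hFz
        _ = 2 * ((∑ z ∈ A, ((fibz (adj Γ l) S' z y).card : ℝ)) * Nat.card (adj Γ l)) := by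
            rw [← Finset.mul_sum, Finset.sum_mul]
        _ ≤ _ := by
            have : (∑ z ∈ A, ((fibz (adj Γ l) S' z y).card : ℝ)) ≤
                ((fibz (adj Γ l) S y y).card : ℝ) := by exact_mod_cast hdisj
            have h0 : (0 : ℝ) ≤ Nat.card (adj Γ l) := Nat.cast_nonneg _
            nlinarith
    have h2 : (2 : ℝ) ^ H.card ≤ A.card * 2 ^ D := by exact_mod_cast hAcard
    calc (Nat.card N' : ℝ) * 2 ^ Sᶜ.card = 2 ^ H.card * ((Nat.card N' : ℝ) * 2 ^ S'ᶜ.card) := by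
          rw [← hcompl, pow_add]; ring
      _ ≤ (A.card * 2 ^ D) * ((Nat.card N' : ℝ) * 2 ^ S'ᶜ.card) :=
          mul_le_mul_of_nonneg_right h2 (by positivity)
      _ = 2 ^ D * ((A.card : ℝ) * ((Nat.card N' : ℝ) * 2 ^ S'ᶜ.card)) := by ring
      _ ≤ 2 ^ D * (2 * (((fibz (adj Γ l) S y y).card : ℝ) * Nat.card (adj Γ l))) :=
          mul_le_mul_of_nonneg_left h1 (by positivity)
      _ = _ := by ring
  have hup : ((fibz Γ S y y).card : ℝ) * Nat.card Γ ≤ 2 * ((Nat.card N₀ : ℝ) * 2 ^ Sᶜ.card) := by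
    have h1 := card_fibz Γ S y y R hReg (fun _ _ _ => rfl)
    have h2 := (abs_le.1 h1).2
    have h3 : (Nat.card Γ : ℝ) * (2 ^ Sᶜ.card * rho m ^ R) ≤ (Nat.card N₀ : ℝ) * 2 ^ Sᶜ.card := by
      have h4 : rho m ^ R ≤ rho m ^ r := by
        refine pow_le_pow_of_le_one (rho_pos m).le (rho_le_one m) ?_
        have ht1 : 1 ≤ t₁ := by
          rcases Nat.eq_zero_or_pos t₁ with h0 | h0
          · exfalso
            rw [h0, pow_zero] at ht
            have := pow_pos hm w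
            omega
          · exact h0
        have : r ≤ r * t₁ := Nat.le_mul_of_pos_right _ ht1
        omega
      have h5 : (Nat.card Γ : ℝ) * rho m ^ R ≤ 1 := by
        have hmw : (1 : ℝ) ≤ (m : ℝ) ^ w := one_le_pow₀ (by exact_mod_cast hm)
        have hc0 : (0 : ℝ) ≤ Nat.card Γ := Nat.cast_nonneg _
        calc (Nat.card Γ : ℝ) * rho m ^ R ≤ Nat.card Γ * rho m ^ r :=
              mul_le_mul_of_nonneg_left h4 hc0
          _ ≤ (Nat.card Γ * m ^ w : ℝ) * rho m ^ r := by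
              refine mul_le_mul_of_nonneg_right ?_ hρ
              nlinarith
          _ ≤ 1 / 2 := hr
          _ ≤ 1 := by norm_num
      have h6 : (1 : ℝ) ≤ Nat.card N₀ := by exact_mod_cast (Nat.card_pos (α := N₀))
      have h7 : (0 : ℝ) ≤ 2 ^ Sᶜ.card := by positivity
      calc (Nat.card Γ : ℝ) * (2 ^ Sᶜ.card * rho m ^ R) =
          ((Nat.card Γ : ℝ) * rho m ^ R) * 2 ^ Sᶜ.card := by ring
        _ ≤ 1 * 2 ^ Sᶜ.card := mul_le_mul_of_nonneg_right h5 h7
        _ ≤ _ := mul_le_mul_of_nonneg_right h6 h7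
    linarith
  have hN₀N'c : (Nat.card N₀ : ℝ) ≤ Nat.card N' := by
    exact_mod_cast Nat.card_le_card_of_injective (AddSubgroup.inclusion hN₀N')
      (AddSubgroup.inclusion_injective _)
  have hΓpos : (0 : ℝ) < Nat.card Γ := by exact_mod_cast (Nat.card_pos (α := Γ))
  have hfin : ((fibz Γ S y y).card : ℝ) * Nat.card Γ ≤
      (2 ^ (D + 2) * m ^ w * (fibz (adj Γ l) S y y).card : ℝ) * Nat.card Γ := by
    have h7 : (0 : ℝ) ≤ 2 ^ Sᶜ.card := by positivity
    calc ((fibz Γ S y y).card : ℝ) * Nat.card Γ ≤ 2 * ((Nat.card N₀ : ℝ) * 2 ^ Sᶜ.card) := hup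
      _ ≤ 2 * ((Nat.card N' : ℝ) * 2 ^ Sᶜ.card) := by nlinarith
      _ ≤ 2 * (2 * 2 ^ D * (((fibz (adj Γ l) S y y).card : ℝ) * Nat.card (adj Γ l))) := by
          linarith
      _ ≤ 2 * (2 * 2 ^ D * (((fibz (adj Γ l) S y y).card : ℝ) * (Nat.card Γ * m ^ w))) := by
          gcongr
      _ = _ := by ring
  have := le_of_mul_le_mul_right hfin hΓpos
  exact_mod_cast this

end Pool.Agent.Helper21.LinSys
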