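import Pool.Agent.Helper21.LinSys.ZeroSum

/-!
# Regularising groups of linear forms by fixing variables
-/

set_option autoImplicit false

namespace Pool.Agent.Helper21.LinSys

open Finset

variable {ι : Type*} [Fintype ι] [DecidableEq ι] {m : ℕ}

/-- All forms of the group are supported in `T` or have at least `r` nonzero coefficients outside
`T`. -/
def Reg (Γ : AddSubgroup (ι → ZMod m)) (T : Finset ι) (r : ℕ) : Prop :=
  ∀ L ∈ Γ, L ∈ sup m T ∨ r ≤ off T L

omit [Fintype ι] [DecidableEq ι] in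
theorem sup_mono {S T : Finset ι} (h : S ⊆ T) : sup m S ≤ sup m T :=
  fun _ hL i hi => hL i fun hc => hi (h hc)

/-- A proper inclusion of finite subgroups at least doubles the cardinality. -/
theorem two_mul_card_le {G : Type*} [AddCommGroup G] [Finite G] {A B : AddSubgroup G}
    (hAB : A ≤ B) {g : G} (hgB : g ∈ B) (hgA : g ∉ A) : 2 * Nat.card A ≤ Nat.card B := by
  obtain ⟨c, hc⟩ := AddSubgroup.card_dvd_of_le hAB
  have hne : ¬ Nat.card B ≤ Nat.card A := by
    intro h
    exact hgA ((AddSubgroup.eq_of_le_of_card_ge hAB h) ▸ hgB)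
  have hc2 : 2 ≤ c := by
    by_contra hlt
    push Not at hlt
    apply hne
    rw [hc]
    calc Nat.card A * c ≤ Nat.card A * 1 := Nat.mul_le_mul_left _ (by omega)
      _ = _ := mul_one _
  rw [hc, mul_comm]
  exact Nat.mul_le_mul_left _ hc2

theorem regularise [NeZero m] (Γ : AddSubgroup (ι → ZMod m)) (S : Finset ι) (r : ℕ) (N : ℕ) :
    ∃ t ≤ N, ∃ S' : Finset ι, S ⊆ S' ∧ (S' \ S).card ≤ r * t ∧
      2 ^ t * Nat.card (Γ ⊓ sup m S : AddSubgroup (ι → ZMod m)) ≤
        Nat.card (Γ ⊓ sup m S' : AddSubgroup (ι → ZMod m)) ∧ (Reg Γ S' r ∨ t = N) := by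
  classical
  induction N with
  | zero => exact ⟨0, le_rfl, S, Finset.Subset.refl _, by simp, by simp, Or.inr rfl⟩
  | succ N ih =>
    obtain ⟨t, ht, S', hSS, hcard, hpow, hor⟩ := ih
    by_cases hreg : Reg Γ S' r
    · exact ⟨t, by omega, S', hSS, hcard, hpow, Or.inl hreg⟩
    · have htN : t = N := by
        rcases hor with h | h
        · exact absurd h hreg
        · exact h
      unfold Reg at hreg
      push Not at hreg
      obtain ⟨L, hL, hLs, hLr⟩ := hreg
      refine ⟨t + 1, by omega, S' ∪ (univ.filter fun i => i ∉ S' ∧ L i ≠ 0),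
        hSS.trans Finset.subset_union_left, ?_, ?_, Or.inr (by omega)⟩
      · have h1 : (S' ∪ (univ.filter fun i => i ∉ S' ∧ L i ≠ 0)) \ S ⊆
            (S' \ S) ∪ (univ.filter fun i => i ∉ S' ∧ L i ≠ 0) := by
          intro i hi
          rw [Finset.mem_sdiff, Finset.mem_union] at hi
          rw [Finset.mem_union, Finset.mem_sdiff]
          rcases hi with ⟨h | h, h'⟩
          · exact Or.inl ⟨h, h'⟩
          · exact Or.inr h
        refine (Finset.card_le_card h1).trans ((Finset.card_union_le _ _).trans ?_)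
        have h2 : (univ.filter fun i => i ∉ S' ∧ L i ≠ 0).card ≤ r := hLr.le
        rw [Nat.mul_succ]
        exact Nat.add_le_add hcard h2
      · have hle : (Γ ⊓ sup m S' : AddSubgroup (ι → ZMod m)) ≤
            Γ ⊓ sup m (S' ∪ (univ.filter fun i => i ∉ S' ∧ L i ≠ 0)) :=
          inf_le_inf_left _ (sup_mono Finset.subset_union_left)
        have h3 := two_mul_card_le hle (g := L) ⟨hL, by
          intro i hi
          rw [Finset.mem_union, not_or, Finset.mem_filter] at hi
          by_contra hne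
          exact hi.2 ⟨Finset.mem_univ _, hi.1, hne⟩⟩ (fun h => hLs h.2)
        calc 2 ^ (t + 1) * Nat.card (Γ ⊓ sup m S : AddSubgroup (ι → ZMod m)) =
            2 * (2 ^ t * Nat.card (Γ ⊓ sup m S : AddSubgroup (ι → ZMod m))) := by ring
          _ ≤ 2 * Nat.card (Γ ⊓ sup m S' : AddSubgroup (ι → ZMod m)) :=
              Nat.mul_le_mul_left _ hpow
          _ ≤ _ := h3

/-- The group generated by `Γ` and the forms `ℓ j`. -/
def adj {w : ℕ} (Γ : AddSubgroup (ι → ZMod m)) (l : Fin w → ι → ZMod m) :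
    AddSubgroup (ι → ZMod m) := Γ ⊔ AddSubgroup.closure (Set.range l)

omit [Fintype ι] [DecidableEq ι] in
/-- Every element of `adj Γ l` is an element of `Γ` plus a combination of the `l j` with
coefficients modulo `m`. -/
theorem exists_coeff {w : ℕ} (Γ : AddSubgroup (ι → ZMod m)) (l : Fin w → ι → ZMod m)
    (L : ι → ZMod m) (hL : L ∈ adj Γ l) :
    ∃ c : Fin w → ZMod m, L - ∑ j, c j • l j ∈ Γ := by
  unfold adj at hL
  rw [AddSubgroup.mem_sup] at hL
  obtain ⟨g, hg, h, hh, rfl⟩ := hL
  have : ∃ c : Fin w → ZMod m, h = ∑ j, c j • l j := by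
    induction hh using AddSubgroup.closure_induction with
    | mem x hx =>
      obtain ⟨j, rfl⟩ := hx
      refine ⟨fun i => if i = j then 1 else 0, ?_⟩
      simp
    | zero => exact ⟨0, by simp⟩
    | add x y _ _ hx hy =>
      obtain ⟨c, rfl⟩ := hx
      obtain ⟨d, rfl⟩ := hy
      exact ⟨c + d, by simp [add_smul, Finset.sum_add_distrib]⟩
    | neg x _ hx =>
      obtain ⟨c, rfl⟩ := hx
      exact ⟨-c, by simp⟩
  obtain ⟨c, rfl⟩ := this
  exact ⟨c, by simpa using hg⟩

omit [DecidableEq ι] in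
theorem card_adj_le [NeZero m] {w : ℕ} (Γ : AddSubgroup (ι → ZMod m))
    (l : Fin w → ι → ZMod m) : Nat.card (adj Γ l) ≤ Nat.card Γ * m ^ w := by
  classical
  have h1 : Nat.card (Γ × (Fin w → ZMod m)) = Nat.card Γ * m ^ w := by
    rw [Nat.card_prod]
    congr 1
    rw [Nat.card_eq_fintype_card, Fintype.card_fun, ZMod.card, Fintype.card_fin]
  rw [← h1]
  choose c hc using fun L : adj Γ l => exists_coeff Γ l L L.2
  refine Nat.card_le_card_of_injective
    (fun L : adj Γ l => ((⟨(L : ι → ZMod m) - ∑ j, c L j • l j, hc L⟩ : Γ), c L)) ?_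
  intro L L' h
  simp only [Prod.mk.injEq, Subtype.mk.injEq] at h
  apply Subtype.ext
  have h2 := h.1
  rw [h.2] at h2
  exact sub_left_injective h2

omit [Fintype ι] [DecidableEq ι] in
theorem le_adj {w : ℕ} (Γ : AddSubgroup (ι → ZMod m)) (l : Fin w → ι → ZMod m) :
    Γ ≤ adj Γ l := le_sup_left

omit [Fintype ι] [DecidableEq ι] in
theorem mem_adj {w : ℕ} (Γ : AddSubgroup (ι → ZMod m)) (l : Fin w → ι → ZMod m) (j : Fin w) :
    l j ∈ adj Γ l :=
  (le_sup_right : AddSubgroup.closure (Set.range l) ≤ adj Γ l)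
    (AddSubgroup.subset_closure ⟨j, rfl⟩)

omit [DecidableEq ι] in
/-- A point has the same values as `y` at all forms of `adj Γ l` as soon as it does at those of
`Γ` and at the `l j`. -/
theorem adj_eq {w : ℕ} (Γ : AddSubgroup (ι → ZMod m)) (l : Fin w → ι → ZMod m)
    (x y : ι → Bool) (h : ∀ L ∈ Γ, ev L x = ev L y) (hl : ∀ j, ev (l j) x = ev (l j) y) :
    ∀ L ∈ adj Γ l, ev L x = ev L y := by
  have hle : adj Γ l ≤ (evHom x - evHom y : (ι → ZMod m) →+ ZMod m).ker := by
    refine sup_le ?_ ?_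
    · intro L hL
      rw [AddMonoidHom.mem_ker, AddMonoidHom.sub_apply, evHom_apply, evHom_apply, h L hL,
        sub_self]
    · rw [AddSubgroup.closure_le]
      rintro _ ⟨j, rfl⟩
      change (evHom x - evHom y : (ι → ZMod m) →+ ZMod m) (l j) = 0
      rw [AddMonoidHom.sub_apply, evHom_apply, evHom_apply, hl j, sub_self]
  intro L hL
  have := hle hL
  rw [AddMonoidHom.mem_ker, AddMonoidHom.sub_apply, evHom_apply, evHom_apply] at this
  exact sub_eq_zero.1 this

end Pool.Agent.Helper21.LinSys
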