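import Pool.Agent.Helper21.LinSys.Basic

/-!
# Sizes of fibres of groups of linear forms on subcubes
-/

set_option autoImplicit false

namespace Pool.Agent.Helper21.LinSys

open Finset

variable {ι : Type*} [Fintype ι] [DecidableEq ι] {m : ℕ}

/-- The subcube of all `x` that agree with `z` on `T`. -/
def cube (T : Finset ι) (z : ι → Bool) : Finset (ι → Bool) :=
  Fintype.piFinset fun i => if i ∈ T then {z i} else univ

theorem mem_cube {T : Finset ι} {z x : ι → Bool} : x ∈ cube T z ↔ ∀ i ∈ T, x i = z i := by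
  unfold cube
  rw [Fintype.mem_piFinset]
  refine forall_congr' fun i => ?_
  by_cases h : i ∈ T <;> simp [h]

theorem card_cube (T : Finset ι) (z : ι → Bool) : (cube T z).card = 2 ^ Tᶜ.card := by
  unfold cube
  rw [Fintype.card_piFinset]
  have h : ∀ i : ι, ((if i ∈ T then {z i} else univ : Finset Bool)).card =
      if i ∈ Tᶜ then 2 else 1 := by
    intro i
    by_cases h : i ∈ T <;> simp [h]
  rw [Finset.prod_congr rfl fun i _ => h i, Finset.prod_ite_mem, Finset.univ_inter,
    Finset.prod_const]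

omit [DecidableEq ι] in
theorem char_ev [NeZero m] (a : ι → ZMod m) (x : ι → Bool) :
    (ZMod.stdAddChar (ev a x) : ℂ) = ∏ i, if x i = true then (ZMod.stdAddChar (a i) : ℂ) else 1 := by
  unfold ev
  classical
  have : ∀ s : Finset ι, (ZMod.stdAddChar (∑ i ∈ s, if x i = true then a i else 0) : ℂ) =
      ∏ i ∈ s, if x i = true then (ZMod.stdAddChar (a i) : ℂ) else 1 := by
    intro s
    induction s using Finset.induction_on with
    | empty => simp
    | insert i s hi ih =>
      rw [Finset.sum_insert hi, Finset.prod_insert hi, AddChar.map_add_eq_mul, ih]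
      congr 1
      split <;> simp
  exact this univ

theorem sum_cube [NeZero m] (a : ι → ZMod m) (T : Finset ι) (z : ι → Bool) :
    ∑ x ∈ cube T z, (ZMod.stdAddChar (ev a x) : ℂ) =
      ∏ i, if i ∈ T then (if z i = true then (ZMod.stdAddChar (a i) : ℂ) else 1)
        else (1 + ZMod.stdAddChar (a i)) := by
  have h := (Finset.prod_univ_sum (fun i : ι => if i ∈ T then ({z i} : Finset Bool) else univ)
    (fun i b => if b = true then (ZMod.stdAddChar (a i) : ℂ) else 1)).symm
  have h2 : ∑ x ∈ cube T z, (ZMod.stdAddChar (ev a x) : ℂ) =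
      ∑ x ∈ cube T z, ∏ i, if x i = true then (ZMod.stdAddChar (a i) : ℂ) else 1 :=
    Finset.sum_congr rfl fun x _ => char_ev a x
  rw [h2]
  refine h.trans ?_
  refine Finset.prod_congr rfl fun i _ => ?_
  by_cases hi : i ∈ T
  · simp [hi]
  · simp [hi, add_comm]

theorem norm_char [NeZero m] (a : ZMod m) : ‖(ZMod.stdAddChar a : ℂ)‖ = 1 := by
  rw [ZMod.stdAddChar_apply]
  exact Circle.norm_coe _

theorem norm_sum_cube_le [NeZero m] (a : ι → ZMod m) (T : Finset ι) (z : ι → Bool) (r : ℕ)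
    (hr : r ≤ (univ.filter fun i => i ∉ T ∧ a i ≠ 0).card) :
    ‖∑ x ∈ cube T z, (ZMod.stdAddChar (ev a x) : ℂ)‖ ≤ 2 ^ Tᶜ.card * rho m ^ r := by
  rw [sum_cube, norm_prod]
  have hb : ∀ i : ι, ‖(if i ∈ T then (if z i = true then (ZMod.stdAddChar (a i) : ℂ) else 1)
        else (1 + ZMod.stdAddChar (a i)))‖ ≤
      (if i ∈ Tᶜ then (2 : ℝ) else 1) * (if i ∈ (univ.filter fun i => i ∉ T ∧ a i ≠ 0) then
        rho m else 1) := by
    intro i
    by_cases hi : i ∈ T
    · have h1 : i ∉ (univ.filter fun i => i ∉ T ∧ a i ≠ 0) := by simp [hi]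
      rw [if_pos hi, if_neg h1]
      by_cases hz : z i = true
      · simp [hz, hi]
      · simp [hz, hi]
    · rw [if_neg hi]
      by_cases ha : a i = 0
      · have h1 : i ∉ (univ.filter fun i => i ∉ T ∧ a i ≠ 0) := by simp [ha]
        rw [if_neg h1, ha]
        simp [hi]
        norm_num
      · have h1 : i ∈ (univ.filter fun i => i ∉ T ∧ a i ≠ 0) := by simp [hi, ha]
        rw [if_pos h1, if_pos (by simpa using hi)]
        exact norm_one_add_le _ ha
  refine (Finset.prod_le_prod (fun i _ => norm_nonneg _) fun i _ => hb i).trans ?_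
  rw [Finset.prod_mul_distrib, Finset.prod_ite_mem, Finset.univ_inter, Finset.prod_const,
    Finset.prod_ite_mem, Finset.univ_inter, Finset.prod_const]
  exact mul_le_mul_of_nonneg_left (pow_le_pow_of_le_one (rho_pos m).le (rho_le_one m) hr)
    (by positivity)

/-- The group of forms supported in `T`. -/
def sup (m : ℕ) (T : Finset ι) : AddSubgroup (ι → ZMod m) where
  carrier := {L | ∀ i, i ∉ T → L i = 0}
  zero_mem' := fun _ _ => rfl
  add_mem' := fun {a b} ha hb i hi => by
    change a i + b i = 0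
    rw [ha i hi, hb i hi, add_zero]
  neg_mem' := fun {a} ha i hi => by
    change -a i = 0
    rw [ha i hi, neg_zero]

omit [Fintype ι] [DecidableEq ι] in
theorem mem_sup {T : Finset ι} {L : ι → ZMod m} : L ∈ sup m T ↔ ∀ i, i ∉ T → L i = 0 := Iff.rfl

/-- The number of nonzero coefficients of `L` outside `T`. -/
def off (T : Finset ι) (L : ι → ZMod m) : ℕ := (univ.filter fun i => i ∉ T ∧ L i ≠ 0).card

open Classical in
/-- The points of the subcube `cube T z` at which all forms in `Γ` have the same value as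
at `y`. -/
noncomputable def fibz (Γ : AddSubgroup (ι → ZMod m)) (T : Finset ι) (z y : ι → Bool) :
    Finset (ι → Bool) := (cube T z).filter fun x => ∀ L ∈ Γ, ev L x = ev L y

theorem mem_fibz {Γ : AddSubgroup (ι → ZMod m)} {T : Finset ι} {z y x : ι → Bool} :
    x ∈ fibz Γ T z y ↔ (∀ i ∈ T, x i = z i) ∧ ∀ L ∈ Γ, ev L x = ev L y := by
  classical
  unfold fibz
  rw [Finset.mem_filter, mem_cube]

theorem sum_char_group [NeZero m] (Γ : AddSubgroup (ι → ZMod m)) (x y : ι → Bool)
    [Decidable (∀ L ∈ Γ, ev L x = ev L y)] [Fintype Γ] :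
    ∑ L : Γ, (ZMod.stdAddChar (ev (L : ι → ZMod m) x) : ℂ) *
      ZMod.stdAddChar (-ev (L : ι → ZMod m) y) =
      if ∀ L ∈ Γ, ev L x = ev L y then (Nat.card Γ : ℂ) else 0 := by
  classical
  let ψ : AddChar Γ ℂ := ZMod.stdAddChar.compAddMonoidHom
    ((evHom x - evHom y : (ι → ZMod m) →+ ZMod m).comp Γ.subtype)
  have hψ : ∀ L : Γ, ψ L = (ZMod.stdAddChar (ev (L : ι → ZMod m) x) : ℂ) *
      ZMod.stdAddChar (-ev (L : ι → ZMod m) y) := by
    intro L
    rw [← AddChar.map_add_eq_mul, ← sub_eq_add_neg]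
    rfl
  rw [← Finset.sum_congr rfl fun L _ => hψ L, AddChar.sum_eq_ite, Nat.card_eq_fintype_card]
  have h0 : ψ = 0 ↔ ∀ L ∈ Γ, ev L x = ev L y := by
    rw [AddChar.eq_zero_iff]
    constructor
    · intro h L hL
      have h1 := h ⟨L, hL⟩
      have h2 : (ZMod.stdAddChar (ev L x - ev L y) : ℂ) = ZMod.stdAddChar (0 : ZMod m) := by
        rw [AddChar.map_zero_eq_one]
        exact h1
      exact sub_eq_zero.1 (ZMod.injective_stdAddChar h2)
    · intro h L
      rw [hψ, h L L.2, ← AddChar.map_add_eq_mul, add_neg_cancel, AddChar.map_zero_eq_one]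
  by_cases h : ∀ L ∈ Γ, ev L x = ev L y
  · rw [if_pos h, if_pos (h0.2 h)]
  · rw [if_neg h, if_neg (fun hc => h (h0.1 hc))]

/-- The size of a fibre of a group of forms on a subcube, when all forms that are not supported
in `T` have at least `r` nonzero coefficients outside `T`. -/
theorem card_fibz [NeZero m] (Γ : AddSubgroup (ι → ZMod m)) (T : Finset ι) (z y : ι → Bool)
    (r : ℕ) (hreg : ∀ L ∈ Γ, L ∈ sup m T ∨ r ≤ off T L)
    (hzy : ∀ L ∈ Γ, L ∈ sup m T → ev L z = ev L y) :
    |((fibz Γ T z y).card : ℝ) * Nat.card Γ - (Nat.card (Γ ⊓ sup m T : AddSubgroup _)) *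
      2 ^ Tᶜ.card| ≤ Nat.card Γ * (2 ^ Tᶜ.card * rho m ^ r) := by
  classical
  have : Fintype Γ := Fintype.ofFinite _
  -- the double sum
  have h1 : (((fibz Γ T z y).card : ℂ) * Nat.card Γ) = ∑ L : Γ,
      (∑ x ∈ cube T z, (ZMod.stdAddChar (ev (L : ι → ZMod m) x) : ℂ)) *
        ZMod.stdAddChar (-ev (L : ι → ZMod m) y) := by
    have : ∀ L : Γ, (∑ x ∈ cube T z, (ZMod.stdAddChar (ev (L : ι → ZMod m) x) : ℂ)) *
        ZMod.stdAddChar (-ev (L : ι → ZMod m) y) =
        ∑ x ∈ cube T z, (ZMod.stdAddChar (ev (L : ι → ZMod m) x) : ℂ) *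
        ZMod.stdAddChar (-ev (L : ι → ZMod m) y) := fun L => Finset.sum_mul _ _ _
    rw [Finset.sum_congr rfl fun L _ => this L, Finset.sum_comm,
      Finset.sum_congr rfl fun x _ => sum_char_group Γ x y, ← Finset.sum_filter,
      Finset.sum_const, nsmul_eq_mul]
    congr 2
    unfold fibz
    congr 1
    ext x
    simp only [Finset.mem_filter]
  -- the terms supported in T
  have h2 : (((Nat.card (Γ ⊓ sup m T : AddSubgroup _) : ℕ) : ℂ) * 2 ^ Tᶜ.card) =
      ∑ L : Γ, if (L : ι → ZMod m) ∈ sup m T then (2 : ℂ) ^ Tᶜ.card else 0 := by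
    rw [← Finset.sum_filter, Finset.sum_const, nsmul_eq_mul]
    congr 2
    rw [← Fintype.card_subtype, ← Nat.card_eq_fintype_card]
    refine Nat.card_congr ?_
    refine ⟨fun L => ⟨⟨L.1, L.2.1⟩, L.2.2⟩, fun L => ⟨L.1.1, L.1.2, L.2⟩, fun L => rfl,
      fun L => rfl⟩
  have h3 : ∀ L : Γ, ‖(∑ x ∈ cube T z, (ZMod.stdAddChar (ev (L : ι → ZMod m) x) : ℂ)) *
        ZMod.stdAddChar (-ev (L : ι → ZMod m) y) -
        (if (L : ι → ZMod m) ∈ sup m T then (2 : ℂ) ^ Tᶜ.card else 0)‖ ≤
        2 ^ Tᶜ.card * rho m ^ r := by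
    intro L
    have hpos : (0 : ℝ) ≤ 2 ^ Tᶜ.card * rho m ^ r := by
      have := rho_pos m
      positivity
    by_cases hL : (L : ι → ZMod m) ∈ sup m T
    · rw [if_pos hL, Finset.sum_mul]
      have : ∀ x ∈ cube T z, (ZMod.stdAddChar (ev (L : ι → ZMod m) x) : ℂ) *
          ZMod.stdAddChar (-ev (L : ι → ZMod m) y) = 1 := by
        intro x hx
        have hx' : ev (L : ι → ZMod m) x = ev (L : ι → ZMod m) y := by
          rw [← hzy L L.2 hL]
          refine ev_congr fun i hi => mem_cube.1 hx i ?_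
          by_contra hiT
          exact hi (hL i hiT)
        rw [hx', ← AddChar.map_add_eq_mul, add_neg_cancel, AddChar.map_zero_eq_one]
      rw [Finset.sum_congr rfl this, Finset.sum_const, card_cube, nsmul_eq_mul]
      simpa using hpos
    · rw [if_neg hL, sub_zero, norm_mul, norm_char, mul_one]
      rcases hreg L L.2 with h | h
      · exact absurd h hL
      · exact norm_sum_cube_le _ T z r h
  have h4 : ‖(((fibz Γ T z y).card : ℂ) * Nat.card Γ) -
      (((Nat.card (Γ ⊓ sup m T : AddSubgroup _) : ℕ) : ℂ) * 2 ^ Tᶜ.card)‖ ≤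
      Nat.card Γ * (2 ^ Tᶜ.card * rho m ^ r) := by
    rw [h1, h2, ← Finset.sum_sub_distrib]
    refine (norm_sum_le _ _).trans ((Finset.sum_le_sum fun L _ => h3 L).trans ?_)
    rw [Finset.sum_const, nsmul_eq_mul, Finset.card_univ, Nat.card_eq_fintype_card]
  have h5 : (((fibz Γ T z y).card : ℂ) * Nat.card Γ) -
      (((Nat.card (Γ ⊓ sup m T : AddSubgroup _) : ℕ) : ℂ) * 2 ^ Tᶜ.card) =
      ((((fibz Γ T z y).card : ℝ) * Nat.card Γ - (Nat.card (Γ ⊓ sup m T : AddSubgroup _)) *
      2 ^ Tᶜ.card : ℝ) : ℂ) := by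
    push_cast
    ring
  rw [h5, Complex.norm_real, Real.norm_eq_abs] at h4
  exact h4

end Pool.Agent.Helper21.LinSys
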