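import Pool.Agent.Helper21.LinSys.Progress

/-!
# Deciding intersections of local conditions by linear decision trees modulo m
-/

set_option autoImplicit false

namespace Pool.Agent.Helper21.LinSys

open Finset

/-- Exceptional sets of the classes of a partition are put together. -/
theorem assemble {α : Type*} [DecidableEq α] (X W : Finset α) (cl : α → Finset α)
    (h1 : ∀ x ∈ X, x ∈ cl x) (h2 : ∀ x ∈ X, cl x ⊆ X)
    (h3 : ∀ x ∈ X, ∀ x' ∈ cl x, cl x' = cl x) (hW : ∀ x ∈ X, x ∈ W → cl x ⊆ W)
    (B₁ B₂ : ℝ) (hB : B₁ ≤ B₂) (Q : α → Prop)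
    (hQ : ∀ x ∈ X, ∃ E : Finset α, (E.card : ℝ) ≤ (if x ∈ W then B₁ else B₂) * (cl x).card ∧
      ∀ x' ∈ cl x, x' ∉ E → Q x') :
    ∃ E : Finset α, (E.card : ℝ) ≤ B₁ * X.card + (B₂ - B₁) * (X \ W).card ∧
      ∀ x ∈ X, x ∉ E → Q x := by
  classical
  rcases X.eq_empty_or_nonempty with rfl | ⟨x₀, hx₀⟩
  · exact ⟨∅, by simp, fun x hx => absurd hx (Finset.notMem_empty x)⟩
  have : Nonempty α := ⟨x₀⟩
  choose! e he1 he2 using hQ
  have hpick : ∀ c ∈ X.image cl, ∃ u ∈ X, cl u = c := by
    intro c hc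
    obtain ⟨u, hu, huc⟩ := Finset.mem_image.1 hc
    exact ⟨u, hu, huc⟩
  choose! pick hp1 hp2 using hpick
  have hclass : ∀ c ∈ X.image cl, X.filter (fun a => cl a = c) = c := by
    intro c hc
    ext a
    rw [Finset.mem_filter]
    constructor
    · rintro ⟨ha, rfl⟩
      exact h1 a ha
    · intro ha
      rw [← hp2 c hc] at ha
      exact ⟨h2 _ (hp1 c hc) ha, (h3 _ (hp1 c hc) a ha).trans (hp2 c hc)⟩
  refine ⟨(X.image cl).biUnion fun c => e (pick c), ?_, ?_⟩
  · have s1 : (((X.image cl).biUnion fun c => e (pick c)).card : ℝ) ≤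
        ∑ c ∈ X.image cl, (B₁ * c.card + (B₂ - B₁) * (c \ W).card) := by
      have s0 : (((X.image cl).biUnion fun c => e (pick c)).card : ℝ) ≤
          ∑ c ∈ X.image cl, ((e (pick c)).card : ℝ) := by
        exact_mod_cast (Finset.card_biUnion_le (s := X.image cl) (t := fun c => e (pick c)))
      refine s0.trans ?_
      refine Finset.sum_le_sum fun c hc => ?_
      refine (he1 _ (hp1 c hc)).trans ?_
      rw [hp2 c hc]
      by_cases hw : pick c ∈ W
      · rw [if_pos hw]
        have : (0 : ℝ) ≤ (B₂ - B₁) * (c \ W).card :=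
          mul_nonneg (by linarith) (Nat.cast_nonneg _)
        linarith
      · rw [if_neg hw]
        have hcW : c \ W = c := by
          rw [Finset.sdiff_eq_self_iff_disjoint, Finset.disjoint_left]
          intro a ha haW
          rw [← hp2 c hc] at ha
          have haX := h2 _ (hp1 c hc) ha
          have h4 := hW a haX haW
          rw [h3 _ (hp1 c hc) a ha] at h4
          exact hw (h4 (h1 _ (hp1 c hc)))
        rw [hcW]
        linarith
    refine s1.trans (le_of_eq ?_)
    rw [Finset.sum_add_distrib, ← Finset.mul_sum, ← Finset.mul_sum]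
    have s2 : (X.card : ℝ) = ∑ c ∈ X.image cl, (c.card : ℝ) := by
      rw [Finset.card_eq_sum_card_image cl X]
      push_cast
      exact Finset.sum_congr rfl fun c hc => by rw [hclass c hc]
    have s3 : ((X \ W).card : ℝ) = ∑ c ∈ X.image cl, ((c \ W).card : ℝ) := by
      have : (X \ W).card = ∑ c ∈ X.image cl, ((X \ W).filter fun a => cl a = c).card :=
        Finset.card_eq_sum_card_fiberwise fun a ha =>
          Finset.mem_image_of_mem cl (Finset.mem_sdiff.1 ha).1
      rw [this]
      push_cast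
      refine Finset.sum_congr rfl fun c hc => ?_
      congr 2
      have hc' := hclass c hc
      ext a
      have ha : a ∈ c ↔ a ∈ X ∧ cl a = c := by
        conv_lhs => rw [← hc']
        exact Finset.mem_filter
      simp only [Finset.mem_filter, Finset.mem_sdiff, ha]
      tauto
    rw [s2, s3]
  · intro x hx hxE
    have hc : cl x ∈ X.image cl := Finset.mem_image_of_mem cl hx
    refine he2 _ (hp1 _ hc) x ?_ ?_
    · rw [hp2 _ hc]; exact h1 x hx
    · intro h
      exact hxE (Finset.mem_biUnion.2 ⟨cl x, hc, h⟩)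

variable {ι : Type*} [Fintype ι] [DecidableEq ι] {m : ℕ}

/-- Points violating `P` violate it for a reason that depends on `w` linear forms only: `P` is an
intersection of conditions each of which depends on `w` linear forms modulo `m`. -/
def Cert (m w : ℕ) (P : (ι → Bool) → Prop) : Prop :=
  ∀ x, ¬ P x → ∃ l : Fin w → ι → ZMod m, ∀ x', (∀ j, ev (l j) x' = ev (l j) x) → ¬ P x'

/-- The nodes of the decision tree after `j` steps. -/
def Nd (m w R j : ℕ) (Γ : AddSubgroup (ι → ZMod m)) (S : Finset ι) : Prop :=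
  Reg Γ S R ∧ Nat.card Γ ≤ m ^ (w * j) ∧
    ∃ t, S.card ≤ R * t ∧ 2 ^ t ≤ Nat.card (Γ ⊓ sup m S : AddSubgroup (ι → ZMod m))

omit [DecidableEq ι] in
theorem card_le_of_le [NeZero m] {A B : AddSubgroup (ι → ZMod m)} (h : A ≤ B) :
    Nat.card A ≤ Nat.card B :=
  Nat.card_le_card_of_injective (AddSubgroup.inclusion h) (AddSubgroup.inclusion_injective h)

theorem Nd.child [NeZero m] {w R j : ℕ} {Γ : AddSubgroup (ι → ZMod m)} {S : Finset ι}
    (h : Nd m w R j Γ S) (l : Fin w → ι → ZMod m) :
    ∃ S', S ⊆ S' ∧ Nd m w R (j + 1) (adj Γ l) S' := by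
  obtain ⟨-, hcard, t, htS, ht2⟩ := h
  obtain ⟨t', -, S', hSS, hc, hp, hor⟩ := regularise (adj Γ l) S R (Nat.card (adj Γ l))
  have h0 : Nat.card (adj Γ l ⊓ sup m S' : AddSubgroup (ι → ZMod m)) ≤ Nat.card (adj Γ l) :=
    card_le_of_le inf_le_left
  have hreg : Reg (adj Γ l) S' R := by
    rcases hor with h | h
    · exact h
    · exfalso
      have h1 : 2 ^ t' ≤ Nat.card (adj Γ l) := by
        calc 2 ^ t' ≤ 2 ^ t' * Nat.card (adj Γ l ⊓ sup m S : AddSubgroup (ι → ZMod m)) :=
              Nat.le_mul_of_pos_right _ Nat.card_pos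
          _ ≤ _ := hp.trans h0
      rw [h] at h1
      exact absurd Nat.lt_two_pow_self (not_lt.2 h1)
  refine ⟨S', hSS, hreg, ?_, t + t', ?_, ?_⟩
  · calc Nat.card (adj Γ l) ≤ Nat.card Γ * m ^ w := card_adj_le Γ l
      _ ≤ m ^ (w * j) * m ^ w := Nat.mul_le_mul_right _ hcard
      _ = m ^ (w * (j + 1)) := by rw [← pow_add]; congr 1
  · have h1 : S'.card = S.card + (S' \ S).card := by
      rw [Finset.card_sdiff_of_subset hSS]
      have := Finset.card_le_card hSS
      omega
    rw [h1, Nat.mul_add]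
    exact Nat.add_le_add htS hc
  · calc 2 ^ (t + t') = 2 ^ t' * 2 ^ t := by rw [pow_add, mul_comm]
      _ ≤ 2 ^ t' * Nat.card (Γ ⊓ sup m S : AddSubgroup (ι → ZMod m)) :=
          Nat.mul_le_mul_left _ ht2
      _ ≤ 2 ^ t' * Nat.card (adj Γ l ⊓ sup m S : AddSubgroup (ι → ZMod m)) :=
          Nat.mul_le_mul_left _ (card_le_of_le (inf_le_inf_right _ (le_adj Γ l)))
      _ ≤ _ := hp

theorem fibz_self_subset {Γ Γ' : AddSubgroup (ι → ZMod m)} {S S' : Finset ι} {x y : ι → Bool}
    (hΓ : Γ ≤ Γ') (hS : S ⊆ S') (hx : x ∈ fibz Γ S y y) : fibz Γ' S' x x ⊆ fibz Γ S y y := by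
  intro u hu
  rw [mem_fibz] at hu hx ⊢
  exact ⟨fun i hi => (hu.1 i (hS hi)).trans (hx.1 i hi),
    fun L hL => (hu.2 L (hΓ hL)).trans (hx.2 L hL)⟩

theorem self_mem_fibz (Γ : AddSubgroup (ι → ZMod m)) (S : Finset ι) (x : ι → Bool) :
    x ∈ fibz Γ S x x := mem_fibz.2 ⟨fun _ _ => rfl, fun _ _ => rfl⟩

theorem fibz_eq_of_mem {Γ : AddSubgroup (ι → ZMod m)} {S : Finset ι} {x y : ι → Bool}
    (hx : x ∈ fibz Γ S y y) : fibz Γ S x x = fibz Γ S y y := by
  refine Finset.Subset.antisymm (fibz_self_subset le_rfl (Finset.Subset.refl _) hx)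
    (fibz_self_subset le_rfl (Finset.Subset.refl _) ?_)
  rw [mem_fibz] at hx ⊢
  exact ⟨fun i hi => (hx.1 i hi).symm, fun L hL => (hx.2 L hL).symm⟩

/-- The parameters of the decision tree. -/
structure Par (m w r D R t₁ J : ℕ) : Prop where
  hD : m ^ w * (m - 1) ^ D < m ^ D
  ht : m ^ w < 2 ^ t₁
  hR : r * t₁ < R
  hr : ((m : ℝ) ^ (w * J)) * rho m ^ r ≤ 1 / 2

/-- The failure rate of one step. -/
noncomputable def theta (m w D : ℕ) : ℝ := 1 - 1 / (2 ^ (D + 2) * m ^ w : ℝ)

theorem theta_nonneg [NeZero m] (w D : ℕ) : 0 ≤ theta m w D := by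
  unfold theta
  have hm : (1 : ℝ) ≤ m := by exact_mod_cast Nat.pos_of_ne_zero (NeZero.ne m)
  have h1 : (1 : ℝ) ≤ 2 ^ (D + 2) * m ^ w :=
    one_le_mul_of_one_le_of_one_le (one_le_pow₀ (by norm_num)) (one_le_pow₀ hm)
  have : 1 / (2 ^ (D + 2) * m ^ w : ℝ) ≤ 1 := by
    rw [div_le_one (by linarith)]
    exact h1
  linarith

/-- The leaves. -/
def Leaf (m w R j : ℕ) (X : Finset (ι → Bool)) (Ps : List ((ι → Bool) → Prop))
    (x : ι → Bool) : Prop :=
  ∃ (j' : ℕ) (Γ' : AddSubgroup (ι → ZMod m)) (S' : Finset ι), j' ≤ j ∧ Nd m w R j' Γ' S' ∧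
    fibz Γ' S' x x ⊆ X ∧ ∀ P ∈ Ps, ∀ x' ∈ fibz Γ' S' x x, (P x' ↔ P x)

theorem Leaf.mono {w R j j₂ : ℕ} {X Y : Finset (ι → Bool)} {Ps : List ((ι → Bool) → Prop)}
    {x : ι → Bool} (h : Leaf m w R j X Ps x) (hj : j ≤ j₂) (hXY : X ⊆ Y) :
    Leaf m w R j₂ Y Ps x := by
  obtain ⟨j', Γ', S', h1, h2, h3, h4⟩ := h
  exact ⟨j', Γ', S', h1.trans hj, h2, h3.trans hXY, h4⟩

theorem Leaf.cons {w R j : ℕ} {X : Finset (ι → Bool)} {Ps : List ((ι → Bool) → Prop)}
    {x : ι → Bool} (h : Leaf m w R j X Ps x) (P : (ι → Bool) → Prop)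
    (hx : x ∈ X) (hP : ∀ x' ∈ X, ∀ x'' ∈ X, (P x' ↔ P x'')) :
    Leaf m w R j X (P :: Ps) x := by
  obtain ⟨j', Γ', S', h1, h2, h3, h4⟩ := h
  refine ⟨j', Γ', S', h1, h2, h3, ?_⟩
  intro P' hP' x' hx'
  rcases List.mem_cons.1 hP' with rfl | h
  · exact hP x' (h3 hx') x hx
  · exact h4 P' h x' hx'

theorem tree [NeZero m] {w r D R t₁ J : ℕ} (hpar : Par m w r D R t₁ J) (q : ℕ)
    (Ps : List ((ι → Bool) → Prop)) (hPs : ∀ P ∈ Ps, Cert m w P) :
    ∀ (j : ℕ) (Γ : AddSubgroup (ι → ZMod m)) (S : Finset ι) (y : ι → Bool),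
      Nd m w R j Γ S → j + q * Ps.length ≤ J →
      ∃ E : Finset (ι → Bool), (E.card : ℝ) ≤ Ps.length * theta m w D ^ q *
          (fibz Γ S y y).card ∧
        ∀ x ∈ fibz Γ S y y, x ∉ E → Leaf m w R (j + q * Ps.length) (fibz Γ S y y) Ps x := by
  classical
  induction Ps with
  | nil =>
    intro j Γ S y hnd _
    refine ⟨∅, by simp, fun x hx _ => ⟨j, Γ, S, by simp, hnd, ?_, by simp⟩⟩
    rw [fibz_eq_of_mem hx]
  | cons P Ps ih =>
    have ih' := ih fun P' hP' => hPs P' (List.mem_cons_of_mem _ hP')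
    have hPc := hPs P List.mem_cons_self
    have inner : ∀ (qc j : ℕ) (Γ : AddSubgroup (ι → ZMod m)) (S : Finset ι) (y : ι → Bool),
        Nd m w R j Γ S → j + qc + q * Ps.length ≤ J →
        ∃ E : Finset (ι → Bool), (E.card : ℝ) ≤ (Ps.length * theta m w D ^ q +
            theta m w D ^ qc) * (fibz Γ S y y).card ∧
          ∀ x ∈ fibz Γ S y y, x ∉ E →
            Leaf m w R (j + qc + q * Ps.length) (fibz Γ S y y) (P :: Ps) x := by
      intro qc
      induction qc with
      | zero =>
        intro j Γ S y _ _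
        refine ⟨fibz Γ S y y, ?_, fun x hx hxE => absurd hx hxE⟩
        have h1 : (0 : ℝ) ≤ Ps.length * theta m w D ^ q :=
          mul_nonneg (Nat.cast_nonneg _) (pow_nonneg (theta_nonneg w D) _)
        have h2 : (0 : ℝ) ≤ (fibz Γ S y y).card := Nat.cast_nonneg _
        rw [pow_zero]
        nlinarith
      | succ qc ihq =>
        intro j Γ S y hnd hJ
        by_cases hall : ∀ x ∈ fibz Γ S y y, P x
        · -- `P` holds on the fibre
          obtain ⟨E, hE, hleaf⟩ := ih' j Γ S y hnd (by omega)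
          refine ⟨E, hE.trans ?_, ?_⟩
          · refine mul_le_mul_of_nonneg_right ?_ (Nat.cast_nonneg _)
            have := pow_nonneg (theta_nonneg (m := m) w D) (qc + 1)
            linarith
          · intro x hx hxE
            refine ((hleaf x hx hxE).cons P hx ?_).mono (by omega) (Finset.Subset.refl _)
            intro x' hx' x'' hx''
            exact ⟨fun _ => hall x'' hx'', fun _ => hall x' hx'⟩
        · push Not at hall
          obtain ⟨x₀, hx₀, hPx₀⟩ := hall
          obtain ⟨l, hl⟩ := hPc x₀ hPx₀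
          obtain ⟨S', hSS, hnd'⟩ := hnd.child l
          set X := fibz Γ S y y with hX
          have hXx₀ : fibz Γ S x₀ x₀ = X := fibz_eq_of_mem hx₀
          set W := fibz (adj Γ l) S x₀ x₀ with hW
          have hWX : W ⊆ X := fibz_self_subset (le_adj Γ l) (Finset.Subset.refl _) hx₀
          have hprog : (X.card : ℝ) ≤ (2 ^ (D + 2) * m ^ w : ℝ) * W.card := by
            have := progress Γ S x₀ l r D R t₁ hnd.1 hpar.hD hpar.ht hpar.hR (by
              have h1 : (Nat.card Γ * m ^ w : ℝ) ≤ (m : ℝ) ^ (w * J) := by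
                have h2 : Nat.card Γ * m ^ w ≤ m ^ (w * J) := by
                  calc Nat.card Γ * m ^ w ≤ m ^ (w * j) * m ^ w :=
                        Nat.mul_le_mul_right _ hnd.2.1
                    _ = m ^ (w * (j + 1)) := by rw [← pow_add]; congr 1
                    _ ≤ m ^ (w * J) := by
                        refine Nat.pow_le_pow_right (Nat.pos_of_ne_zero (NeZero.ne m)) ?_
                        exact Nat.mul_le_mul_left _ (by omega)
                exact_mod_cast h2
              exact (mul_le_mul_of_nonneg_right h1 (pow_nonneg (rho_pos m).le _)).trans hpar.hr)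
            rw [hXx₀] at this
            exact_mod_cast this
          have hcl2 : ∀ x ∈ X, fibz (adj Γ l) S' x x ⊆ X := fun x hx =>
            fibz_self_subset (le_adj Γ l) hSS hx
          obtain ⟨E, hE, hQ⟩ := assemble X W (fun x => fibz (adj Γ l) S' x x)
            (fun x _ => self_mem_fibz _ _ x) hcl2 (fun x _ x' hx' => fibz_eq_of_mem hx')
            (fun x _ hxW => fibz_self_subset le_rfl hSS hxW)
            (Ps.length * theta m w D ^ q) (Ps.length * theta m w D ^ q + theta m w D ^ qc)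
            (by have := pow_nonneg (theta_nonneg (m := m) w D) qc; linarith)
            (fun x => Leaf m w R (j + (qc + 1) + q * Ps.length) X (P :: Ps) x) (by
              intro x hx
              by_cases hxW : x ∈ W
              · rw [if_pos hxW]
                obtain ⟨E, hE, hleaf⟩ := ih' (j + 1) (adj Γ l) S' x hnd' (by omega)
                refine ⟨E, hE, fun x' hx' hx'E => ?_⟩
                refine ((hleaf x' hx' hx'E).cons P hx' ?_).mono (by omega) (hcl2 x hx)
                have hfalse : ∀ u ∈ fibz (adj Γ l) S' x x, ¬ P u := by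
                  intro u hu
                  refine hl u fun i => ?_
                  have hu' := (fibz_self_subset le_rfl hSS hxW) hu
                  exact (mem_fibz.1 hu').2 _ (mem_adj Γ l i)
                intro u hu v hv
                exact ⟨fun h => absurd h (hfalse u hu), fun h => absurd h (hfalse v hv)⟩
              · rw [if_neg hxW]
                obtain ⟨E, hE, hleaf⟩ := ihq (j + 1) (adj Γ l) S' x hnd' (by omega)
                refine ⟨E, hE, fun x' hx' hx'E => ?_⟩
                exact (hleaf x' hx' hx'E).mono (by omega) (hcl2 x hx))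
          refine ⟨E, hE.trans ?_, hQ⟩
          have hXW : ((X \ W).card : ℝ) = X.card - W.card := by
            rw [Finset.card_sdiff_of_subset hWX, Nat.cast_sub (Finset.card_le_card hWX)]
          have hth : ((X \ W).card : ℝ) ≤ theta m w D * X.card := by
            rw [hXW]
            unfold theta
            have hC : (0 : ℝ) < 2 ^ (D + 2) * m ^ w := by
              have : (0 : ℝ) < m := by exact_mod_cast Nat.pos_of_ne_zero (NeZero.ne m)
              positivity
            have h5 : (1 / (2 ^ (D + 2) * m ^ w : ℝ)) * X.card ≤ W.card := by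
              rw [one_div, inv_mul_le_iff₀ hC]
              exact hprog
            linarith
          have h6 : (0 : ℝ) ≤ theta m w D ^ qc := pow_nonneg (theta_nonneg w D) _
          calc (Ps.length * theta m w D ^ q : ℝ) * X.card +
                (Ps.length * theta m w D ^ q + theta m w D ^ qc -
                  Ps.length * theta m w D ^ q) * (X \ W).card
              = (Ps.length * theta m w D ^ q : ℝ) * X.card +
                theta m w D ^ qc * (X \ W).card := by ring
            _ ≤ (Ps.length * theta m w D ^ q : ℝ) * X.card +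
                theta m w D ^ qc * (theta m w D * X.card) := by
                have := mul_le_mul_of_nonneg_left hth h6
                linarith
            _ = _ := by rw [pow_succ]; ring
    intro j Γ S y hnd hJ
    have hlen : q * (P :: Ps).length = q + q * Ps.length := by
      rw [List.length_cons]; ring
    obtain ⟨E, hE, hleaf⟩ := inner q j Γ S y hnd (by omega)
    refine ⟨E, hE.trans (le_of_eq ?_), fun x hx hxE => (hleaf x hx hxE).mono (by omega)
      (Finset.Subset.refl _)⟩
    rw [List.length_cons]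
    push_cast
    ring

end Pool.Agent.Helper21.LinSys
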