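import Pool.Agent.Helper21.LinSys.Size

/-!
# Zero-sum type lemmas for groups of linear forms modulo m
-/

set_option autoImplicit false

namespace Pool.Agent.Helper21.LinSys

open Finset

variable {ι : Type*} [Fintype ι] [DecidableEq ι] {m : ℕ}

/-- If some assignment `b` of residues meets every form of the group on the set `J`, then every
point `y` can be changed inside `J` without changing the values of the forms. -/
theorem exists_ne [NeZero m] (Γ : AddSubgroup (ι → ZMod m)) (y : ι → Bool) (J : Finset ι)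
    (b : ι → ZMod m) (hb : ∀ L ∈ Γ, ∃ i ∈ J, L i = b i) :
    ∃ z, z ≠ y ∧ (∀ i, i ∉ J → z i = y i) ∧ ∀ L ∈ Γ, ev L z = ev L y := by
  classical
  by_contra hcon
  push Not at hcon
  have : Fintype Γ := Fintype.ofFinite _
  set c : (ι → Bool) → ℂ := fun x => ∏ i, if i ∈ J then (if x i = true then (1 : ℂ) else
    -ZMod.stdAddChar (b i)) else 1 with hc
  have hcy : c y ≠ 0 := by
    rw [hc]
    refine Finset.prod_ne_zero_iff.2 fun i _ => ?_
    by_cases hi : i ∈ J
    · rw [if_pos hi]
      by_cases hy : y i = true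
      · simp [hy]
      · rw [if_neg hy]
        refine neg_ne_zero.2 ?_
        intro h0
        have := norm_char (b i)
        rw [h0, norm_zero] at this
        exact zero_ne_one this
    · rw [if_neg hi]; exact one_ne_zero
  have h1 : ∑ x ∈ cube Jᶜ y, c x * ∑ L : Γ, (ZMod.stdAddChar (ev (L : ι → ZMod m) x) : ℂ) *
      ZMod.stdAddChar (-ev (L : ι → ZMod m) y) = c y * Nat.card Γ := by
    rw [Finset.sum_congr rfl fun x _ => by rw [sum_char_group Γ x y]]
    rw [Finset.sum_eq_single_of_mem y (mem_cube.2 fun i _ => rfl)]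
    · rw [if_pos fun L _ => rfl]
    · intro x hx hxy
      rw [if_neg, mul_zero]
      intro hall
      obtain ⟨L, hL, hne⟩ := hcon x hxy fun i hi => mem_cube.1 hx i (by simpa using hi)
      exact hne (hall L hL)
  have h2 : ∑ x ∈ cube Jᶜ y, c x * ∑ L : Γ, (ZMod.stdAddChar (ev (L : ι → ZMod m) x) : ℂ) *
      ZMod.stdAddChar (-ev (L : ι → ZMod m) y) = 0 := by
    have e1 : ∀ x ∈ cube Jᶜ y, c x * ∑ L : Γ, (ZMod.stdAddChar (ev (L : ι → ZMod m) x) : ℂ) *
        ZMod.stdAddChar (-ev (L : ι → ZMod m) y) = ∑ L : Γ,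
        (c x * (ZMod.stdAddChar (ev (L : ι → ZMod m) x) : ℂ)) *
        ZMod.stdAddChar (-ev (L : ι → ZMod m) y) := by
      intro x _
      rw [Finset.mul_sum]
      exact Finset.sum_congr rfl fun L _ => by ring
    rw [Finset.sum_congr rfl e1, Finset.sum_comm]
    refine Finset.sum_eq_zero fun L _ => ?_
    rw [← Finset.sum_mul]
    have e2 : ∑ x ∈ cube Jᶜ y, c x * (ZMod.stdAddChar (ev (L : ι → ZMod m) x) : ℂ) =
        ∏ i, ∑ v ∈ (if i ∈ Jᶜ then {y i} else univ : Finset Bool),
          ((if i ∈ J then (if v = true then (1 : ℂ) else -ZMod.stdAddChar (b i)) else 1) *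
          (if v = true then (ZMod.stdAddChar ((L : ι → ZMod m) i) : ℂ) else 1)) := by
      rw [Finset.prod_univ_sum]
      refine Finset.sum_congr rfl fun x _ => ?_
      rw [hc, char_ev, ← Finset.prod_mul_distrib]
    obtain ⟨i, hiJ, hi⟩ := hb L L.2
    rw [e2, Finset.prod_eq_zero (Finset.mem_univ i), zero_mul]
    have : i ∉ Jᶜ := by simpa using hiJ
    rw [if_neg this]
    simp [hiJ, hi]
  rw [h1] at h2
  have hcard : (Nat.card Γ : ℂ) ≠ 0 := by
    exact_mod_cast (Nat.card_pos (α := Γ)).ne'
  exact mul_ne_zero hcy hcard h2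

omit [Fintype ι] in
/-- A set of points each of which can be changed inside every large subset of `H` is large. -/
theorem card_ge (D : ℕ) : ∀ (n : ℕ) (H : Finset ι) (A : Finset (ι → Bool)), H.card = n →
    A.Nonempty → (∀ y ∈ A, ∀ J : Finset ι, J ⊆ H → D ≤ J.card →
      ∃ z ∈ A, z ≠ y ∧ ∀ i, i ∉ J → z i = y i) → 2 ^ n ≤ A.card * 2 ^ D := by
  classical
  intro n
  induction n with
  | zero =>
    intro H A _ hne _
    have := hne.card_pos
    have h2 : 1 ≤ 2 ^ D := Nat.one_le_two_pow
    simpa using Nat.mul_le_mul this h2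
  | succ n ih =>
    intro H A hH hne h
    by_cases hD : n + 1 < D
    · have h1 : 2 ^ (n + 1) ≤ 2 ^ D := Nat.pow_le_pow_right (by norm_num) hD.le
      calc 2 ^ (n + 1) ≤ 1 * 2 ^ D := by simpa using h1
        _ ≤ _ := Nat.mul_le_mul_right _ hne.card_pos
    · push Not at hD
      obtain ⟨y, hy⟩ := hne
      obtain ⟨z, hz, hzy, hoff⟩ := h y hy H (Finset.Subset.refl _) (by omega)
      obtain ⟨i, hi⟩ := Function.ne_iff.1 hzy
      have hiH : i ∈ H := by
        by_contra hc
        exact hi (hoff i hc)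
      have key : ∀ v : Bool, (∃ u ∈ A, u i = v) →
          2 ^ n ≤ (A.filter fun x => x i = v).card * 2 ^ D := by
        intro v ⟨u, hu, huv⟩
        refine ih (H.erase i) _ (by rw [Finset.card_erase_of_mem hiH, hH]; rfl)
          ⟨u, Finset.mem_filter.2 ⟨hu, huv⟩⟩ ?_
        intro x hx J hJ hJD
        obtain ⟨hxA, hxv⟩ := Finset.mem_filter.1 hx
        obtain ⟨t, ht, htx, hto⟩ := h x hxA J (hJ.trans (Finset.erase_subset _ _)) hJD
        refine ⟨t, Finset.mem_filter.2 ⟨ht, ?_⟩, htx, hto⟩
        rw [hto i fun hc => Finset.notMem_erase i H (hJ hc)]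
        exact hxv
      have h1 := key (y i) ⟨y, hy, rfl⟩
      have h2 := key (z i) ⟨z, hz, rfl⟩
      have h3 : (A.filter fun x => x i = y i).card + (A.filter fun x => x i = z i).card ≤
          A.card := by
        rw [← Finset.card_union_of_disjoint]
        · exact Finset.card_le_card (Finset.union_subset (Finset.filter_subset _ _)
            (Finset.filter_subset _ _))
        · refine Finset.disjoint_filter.2 fun x _ hx1 hx2 => hi ?_
          rw [← hx2, hx1]
      calc 2 ^ (n + 1) = 2 ^ n + 2 ^ n := by ring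
        _ ≤ (A.filter fun x => x i = y i).card * 2 ^ D +
            (A.filter fun x => x i = z i).card * 2 ^ D := Nat.add_le_add h1 h2
        _ = ((A.filter fun x => x i = y i).card + (A.filter fun x => x i = z i).card) * 2 ^ D := by
            ring
        _ ≤ A.card * 2 ^ D := Nat.mul_le_mul_right _ h3

omit [Fintype ι] in
/-- A union bound: some assignment of residues on `J` meets every member of a small family. -/
theorem exists_meet [NeZero m] {κ : Type*} [Fintype κ] (J : Finset ι) (F : κ → ι → ZMod m)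
    (hcard : Fintype.card κ * (m - 1) ^ J.card < m ^ J.card) :
    ∃ b : ι → ZMod m, ∀ c, ∃ i ∈ J, F c i = b i := by
  classical
  let B : κ → Finset (J → ZMod m) := fun c =>
    Fintype.piFinset fun i : J => univ.erase (F c i)
  have hB : ∀ c, (B c).card = (m - 1) ^ J.card := by
    intro c
    rw [Fintype.card_piFinset, Finset.prod_congr rfl fun i _ =>
      Finset.card_erase_of_mem (Finset.mem_univ _), Finset.prod_const, Finset.card_univ,
      Finset.card_univ, ZMod.card, Fintype.card_coe]
  have h1 : (univ.biUnion B).card < (univ : Finset (J → ZMod m)).card := by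
    calc (univ.biUnion B).card ≤ ∑ c, (B c).card := Finset.card_biUnion_le
      _ = Fintype.card κ * (m - 1) ^ J.card := by
          rw [Finset.sum_congr rfl fun c _ => hB c, Finset.sum_const, Finset.card_univ,
            smul_eq_mul]
      _ < m ^ J.card := hcard
      _ = _ := by rw [Finset.card_univ, Fintype.card_fun, ZMod.card, Fintype.card_coe]
  obtain ⟨b, -, hb⟩ := Finset.exists_mem_notMem_of_card_lt_card h1
  refine ⟨fun i => if h : i ∈ J then b ⟨i, h⟩ else 0, fun c => ?_⟩
  have hbc : b ∉ B c := fun h => hb (Finset.mem_biUnion.2 ⟨c, Finset.mem_univ _, h⟩)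
  rw [Fintype.mem_piFinset] at hbc
  push Not at hbc
  obtain ⟨i, hi⟩ := hbc
  refine ⟨i.1, i.2, ?_⟩
  beta_reduce
  rw [dif_pos i.2]
  by_contra hc
  exact hi (Finset.mem_erase.2 ⟨fun h => hc h.symm, Finset.mem_univ _⟩)

end Pool.Agent.Helper21.LinSys
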